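import Pool.Agent.H.MP_7783b9_co.R.Box

/-!
# The counting lemma for the Fano plane
-/

set_option autoImplicit false
set_option linter.unusedSectionVars false

open Finset

namespace Pool.MP7783b9

section

variable {α : Type} [DecidableEq α]

open Classical in
/-- the choices of one point in every part for which the lines in `L` are blue -/
noncomputable def transv (R : Finset α → Prop) (V : Fin 7 → Finset α)
    (L : Finset (Finset (Fin 7))) : Finset (Fin 7 → α) :=
  (Fintype.piFinset V).filter fun x => ∀ f ∈ L, ¬ R (f.image x)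

/-- two lines of the Fano plane meet in one point -/
theorem fano_meet : ∀ f ∈ fano, ∀ g ∈ fano, f ≠ g → (f ∩ g).card = 1 := by
  decide +kernel

theorem FanoC_mem {R : Finset α → Prop} {V : Fin 7 → Finset α} {L : Finset (Finset (Fin 7))}
    {x : Fin 7 → α} : x ∈ transv R V L ↔ x ∈ Fintype.piFinset V ∧ ∀ f ∈ L, ¬ R (f.image x) := by
  classical
  unfold transv
  exact Finset.mem_filter

theorem FanoC_card3 : ∀ f ∈ fano, f.card = 3 := by
  decide +kernel

theorem FanoC_card7 : fano.card = 7 := by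
  decide +kernel

/-- change the values at three places -/
def FanoC_upd (i j k : Fin 7) (y : Fin 7 → α) (t : α × α × α) : Fin 7 → α :=
  fun l => if l = i then t.1 else if l = j then t.2.1 else if l = k then t.2.2 else y l

theorem FanoC_upd_i (i j k : Fin 7) (y : Fin 7 → α) (t : α × α × α) :
    FanoC_upd i j k y t i = t.1 := by
  rw [FanoC_upd, if_pos rfl]

theorem FanoC_upd_j {i j : Fin 7} (hij : i ≠ j) (k : Fin 7) (y : Fin 7 → α) (t : α × α × α) :
    FanoC_upd i j k y t j = t.2.1 := by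
  rw [FanoC_upd, if_neg hij.symm, if_pos rfl]

theorem FanoC_upd_k {i j k : Fin 7} (hik : i ≠ k) (hjk : j ≠ k) (y : Fin 7 → α)
    (t : α × α × α) : FanoC_upd i j k y t k = t.2.2 := by
  rw [FanoC_upd, if_neg hik.symm, if_neg hjk.symm, if_pos rfl]

theorem FanoC_upd_o {i j k l : Fin 7} (hi : l ≠ i) (hj : l ≠ j) (hk : l ≠ k) (y : Fin 7 → α)
    (t : α × α × α) : FanoC_upd i j k y t l = y l := by
  rw [FanoC_upd, if_neg hi, if_neg hj, if_neg hk]

theorem FanoC_upd_mem {V : Fin 7 → Finset α} {i j k : Fin 7} (hij : i ≠ j) (hik : i ≠ k)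
    (hjk : j ≠ k) {y : Fin 7 → α} (hy : y ∈ Fintype.piFinset V) {t : α × α × α}
    (ht : t ∈ V i ×ˢ V j ×ˢ V k) : FanoC_upd i j k y t ∈ Fintype.piFinset V := by
  rw [Fintype.mem_piFinset] at hy ⊢
  rw [Finset.mem_product, Finset.mem_product] at ht
  intro l
  by_cases hi : l = i
  · rw [hi, FanoC_upd_i]
    exact ht.1
  · by_cases hj : l = j
    · rw [hj, FanoC_upd_j hij]
      exact ht.2.1
    · by_cases hk : l = k
      · rw [hk, FanoC_upd_k hik hjk]
        exact ht.2.2
      · rw [FanoC_upd_o hi hj hk]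
        exact hy l

theorem FanoC_invol {i j k : Fin 7} (hij : i ≠ j) (hik : i ≠ k) (hjk : j ≠ k) (y : Fin 7 → α)
    (t : α × α × α) : FanoC_upd i j k (FanoC_upd i j k y t) (y i, y j, y k) = y := by
  funext l
  by_cases hi : l = i
  · rw [hi, FanoC_upd_i]
  · by_cases hj : l = j
    · rw [hj, FanoC_upd_j hij]
    · by_cases hk : l = k
      · rw [hk, FanoC_upd_k hik hjk]
      · rw [FanoC_upd_o hi hj hk, FanoC_upd_o hi hj hk]

open Classical in
/-- double counting over all choices and all changes at three places -/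
theorem FanoC_double (V : Fin 7 → Finset α) {i j k : Fin 7} (hij : i ≠ j) (hik : i ≠ k)
    (hjk : j ≠ k) (S : Finset (Fin 7 → α)) (hS : S ⊆ Fintype.piFinset V) :
    ∑ y ∈ Fintype.piFinset V, ((V i ×ˢ V j ×ˢ V k).filter
      (fun t => FanoC_upd i j k y t ∈ S)).card =
      S.card * ((V i).card * ((V j).card * (V k).card)) := by
  have h1 : ∀ y ∈ Fintype.piFinset V, ((V i ×ˢ V j ×ˢ V k).filter
      (fun t => FanoC_upd i j k y t ∈ S)).card =
      ∑ t ∈ V i ×ˢ V j ×ˢ V k, if FanoC_upd i j k y t ∈ S then 1 else 0 :=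
    fun y _ => Finset.card_filter _ _
  rw [Finset.sum_congr rfl h1, ← Finset.sum_product']
  have h2 : ∑ p ∈ Fintype.piFinset V ×ˢ (V i ×ˢ V j ×ˢ V k),
      (if FanoC_upd i j k p.1 p.2 ∈ S then 1 else 0) =
      ∑ p ∈ Fintype.piFinset V ×ˢ (V i ×ˢ V j ×ˢ V k), (if p.1 ∈ S then 1 else 0) := by
    refine Finset.sum_nbij' (fun p => (FanoC_upd i j k p.1 p.2, (p.1 i, p.1 j, p.1 k)))
      (fun p => (FanoC_upd i j k p.1 p.2, (p.1 i, p.1 j, p.1 k))) ?_ ?_ ?_ ?_ ?_
    · rintro ⟨y, t⟩ hp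
      rw [Finset.mem_product] at hp ⊢
      refine ⟨FanoC_upd_mem hij hik hjk hp.1 hp.2, ?_⟩
      have hy := Fintype.mem_piFinset.1 hp.1
      rw [Finset.mem_product, Finset.mem_product]
      exact ⟨hy i, hy j, hy k⟩
    · rintro ⟨y, t⟩ hp
      rw [Finset.mem_product] at hp ⊢
      refine ⟨FanoC_upd_mem hij hik hjk hp.1 hp.2, ?_⟩
      have hy := Fintype.mem_piFinset.1 hp.1
      rw [Finset.mem_product, Finset.mem_product]
      exact ⟨hy i, hy j, hy k⟩
    · rintro ⟨y, t⟩ _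
      refine Prod.ext ?_ (Prod.ext ?_ (Prod.ext ?_ ?_))
      · exact FanoC_invol hij hik hjk y t
      · exact FanoC_upd_i i j k y t
      · exact FanoC_upd_j hij k y t
      · exact FanoC_upd_k hik hjk y t
    · rintro ⟨y, t⟩ _
      refine Prod.ext ?_ (Prod.ext ?_ (Prod.ext ?_ ?_))
      · exact FanoC_invol hij hik hjk y t
      · exact FanoC_upd_i i j k y t
      · exact FanoC_upd_j hij k y t
      · exact FanoC_upd_k hik hjk y t
    · rintro ⟨y, t⟩ _
      rfl
  rw [h2, Finset.sum_product]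
  have h3 : ∀ y ∈ Fintype.piFinset V, ∑ t ∈ V i ×ˢ V j ×ˢ V k,
      (if ((y, t) : (Fin 7 → α) × (α × α × α)).1 ∈ S then 1 else 0) =
      if y ∈ S then (V i).card * ((V j).card * (V k).card) else 0 := by
    intro y _
    change ∑ t ∈ V i ×ˢ V j ×ˢ V k, (if y ∈ S then 1 else 0) = _
    rw [Finset.sum_const, Finset.card_product, Finset.card_product, smul_eq_mul]
    split_ifs
    · rw [mul_one]
    · rw [mul_zero]
  rw [Finset.sum_congr rfl h3, ← Finset.sum_filter, Finset.sum_const, smul_eq_mul]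
  congr 2
  ext y
  rw [Finset.mem_filter]
  exact ⟨fun h => h.2, fun h => ⟨hS h, h⟩⟩

open Classical in
/-- the points of one part for which the lines of `L` through it are blue -/
noncomputable def FanoC_A (R : Finset α → Prop) (V : Fin 7 → Finset α)
    (L : Finset (Finset (Fin 7))) (y : Fin 7 → α) (i : Fin 7) : Finset α :=
  (V i).filter fun p => ∀ g ∈ L, i ∈ g → ¬ R (g.image (Function.update y i p))

theorem FanoC_memA {R : Finset α → Prop} {V : Fin 7 → Finset α}
    {L : Finset (Finset (Fin 7))} {y : Fin 7 → α} {i : Fin 7} {p : α} : p ∈ FanoC_A R V L y i ↔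
      p ∈ V i ∧ ∀ g ∈ L, i ∈ g → ¬ R (g.image (Function.update y i p)) := by
  classical
  unfold FanoC_A
  exact Finset.mem_filter

theorem FanoC_two {f g : Finset (Fin 7)} (hf : f ∈ fano) (hg : g ∈ fano) (hne : f ≠ g)
    {a b : Fin 7} (ha : a ∈ f) (hb : b ∈ f) (ha' : a ∈ g) (hb' : b ∈ g) : a = b := by
  have h := fano_meet f hf g hg hne
  rw [Finset.card_eq_one] at h
  obtain ⟨c, hc⟩ := h
  have h1 : a ∈ f ∩ g := Finset.mem_inter.2 ⟨ha, ha'⟩
  have h2 : b ∈ f ∩ g := Finset.mem_inter.2 ⟨hb, hb'⟩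
  rw [hc, Finset.mem_singleton] at h1 h2
  rw [h1, h2]

theorem FanoC_img (y : Fin 7 → α) {i j k : Fin 7} (hij : i ≠ j) (hik : i ≠ k) (hjk : j ≠ k)
    (t : α × α × α) (g : Finset (Fin 7)) :
    (i ∈ g → j ∉ g → k ∉ g → g.image (FanoC_upd i j k y t) = g.image (Function.update y i t.1)) ∧
    (j ∈ g → i ∉ g → k ∉ g →
      g.image (FanoC_upd i j k y t) = g.image (Function.update y j t.2.1)) ∧
    (k ∈ g → i ∉ g → j ∉ g →
      g.image (FanoC_upd i j k y t) = g.image (Function.update y k t.2.2)) := by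
  refine ⟨fun _ h2 h3 => ?_, fun _ h2 h3 => ?_, fun _ h2 h3 => ?_⟩
  · refine Finset.image_congr fun l hl => ?_
    rw [Finset.mem_coe] at hl
    have hj : l ≠ j := fun h => h2 (h ▸ hl)
    have hk : l ≠ k := fun h => h3 (h ▸ hl)
    by_cases hi : l = i
    · rw [hi, FanoC_upd_i, Function.update_self]
    · rw [FanoC_upd_o hi hj hk, Function.update_of_ne hi]
  · refine Finset.image_congr fun l hl => ?_
    rw [Finset.mem_coe] at hl
    have hi : l ≠ i := fun h => h2 (h ▸ hl)
    have hk : l ≠ k := fun h => h3 (h ▸ hl)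
    by_cases hj : l = j
    · rw [hj, FanoC_upd_j hij, Function.update_self]
    · rw [FanoC_upd_o hi hj hk, Function.update_of_ne hj]
  · refine Finset.image_congr fun l hl => ?_
    rw [Finset.mem_coe] at hl
    have hi : l ≠ i := fun h => h2 (h ▸ hl)
    have hj : l ≠ j := fun h => h3 (h ▸ hl)
    by_cases hk : l = k
    · rw [hk, FanoC_upd_k hik hjk, Function.update_self]
    · rw [FanoC_upd_o hi hj hk, Function.update_of_ne hk]

theorem FanoC_mem_S (R : Finset α → Prop) (V : Fin 7 → Finset α)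
    (L : Finset (Finset (Fin 7))) (hL : L ⊆ fano) {i j k : Fin 7} (hij : i ≠ j) (hik : i ≠ k)
    (hjk : j ≠ k) (hf : ({i, j, k} : Finset (Fin 7)) ∈ fano)
    (hfL : ({i, j, k} : Finset (Fin 7)) ∉ L) {y : Fin 7 → α} (hy : y ∈ Fintype.piFinset V)
    (t : α × α × α) (ht : t ∈ V i ×ˢ V j ×ˢ V k) :
    FanoC_upd i j k y t ∈ transv R V L ↔ t.1 ∈ FanoC_A R V L y i ∧
      t.2.1 ∈ FanoC_A R V L y j ∧ t.2.2 ∈ FanoC_A R V L y k := by
  have hx := FanoC_upd_mem hij hik hjk hy ht
  rw [Finset.mem_product, Finset.mem_product] at ht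
  have mi : i ∈ ({i, j, k} : Finset (Fin 7)) := by simp
  have mj : j ∈ ({i, j, k} : Finset (Fin 7)) := by simp
  have mk : k ∈ ({i, j, k} : Finset (Fin 7)) := by simp
  have hne : ∀ g ∈ L, ({i, j, k} : Finset (Fin 7)) ≠ g := fun g hg h => hfL (h ▸ hg)
  constructor
  · intro h
    have hb := (FanoC_mem.1 h).2
    refine ⟨FanoC_memA.2 ⟨ht.1, fun g hg hi => ?_⟩,
      FanoC_memA.2 ⟨ht.2.1, fun g hg hj => ?_⟩,
      FanoC_memA.2 ⟨ht.2.2, fun g hg hk => ?_⟩⟩
    · have h1 : j ∉ g := fun hj => hij (FanoC_two hf (hL hg) (hne g hg) mi mj hi hj)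
      have h2 : k ∉ g := fun hk => hik (FanoC_two hf (hL hg) (hne g hg) mi mk hi hk)
      rw [← (FanoC_img y hij hik hjk t g).1 hi h1 h2]
      exact hb g hg
    · have h1 : i ∉ g := fun hi => hij (FanoC_two hf (hL hg) (hne g hg) mi mj hi hj)
      have h2 : k ∉ g := fun hk => hjk (FanoC_two hf (hL hg) (hne g hg) mj mk hj hk)
      rw [← (FanoC_img y hij hik hjk t g).2.1 hj h1 h2]
      exact hb g hg
    · have h1 : i ∉ g := fun hi => hik (FanoC_two hf (hL hg) (hne g hg) mi mk hi hk)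
      have h2 : j ∉ g := fun hj => hjk (FanoC_two hf (hL hg) (hne g hg) mj mk hj hk)
      rw [← (FanoC_img y hij hik hjk t g).2.2 hk h1 h2]
      exact hb g hg
  · rintro ⟨h1, h2, h3⟩
    have h1 := (FanoC_memA.1 h1).2
    have h2 := (FanoC_memA.1 h2).2
    have h3 := (FanoC_memA.1 h3).2
    refine FanoC_mem.2 ⟨hx, fun g hg => ?_⟩
    have hc := fano_meet _ hf g (hL hg) (hne g hg)
    have hn : (({i, j, k} : Finset (Fin 7)) ∩ g).Nonempty := by
      rw [← Finset.card_pos, hc]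
      exact Nat.one_pos
    obtain ⟨l, hl⟩ := hn
    rw [Finset.mem_inter] at hl
    obtain ⟨hl, hlg⟩ := hl
    rw [Finset.mem_insert, Finset.mem_insert, Finset.mem_singleton] at hl
    rcases hl with rfl | rfl | rfl
    · have h4 : j ∉ g := fun hj => hij (FanoC_two hf (hL hg) (hne g hg) mi mj hlg hj)
      have h5 : k ∉ g := fun hk => hik (FanoC_two hf (hL hg) (hne g hg) mi mk hlg hk)
      rw [(FanoC_img y hij hik hjk t g).1 hlg h4 h5]
      exact h1 g hg hlg
    · have h4 : i ∉ g := fun hi => hij (FanoC_two hf (hL hg) (hne g hg) mi mj hi hlg)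
      have h5 : k ∉ g := fun hk => hjk (FanoC_two hf (hL hg) (hne g hg) mj mk hlg hk)
      rw [(FanoC_img y hij hik hjk t g).2.1 hlg h4 h5]
      exact h2 g hg hlg
    · have h4 : i ∉ g := fun hi => hik (FanoC_two hf (hL hg) (hne g hg) mi mk hi hlg)
      have h5 : j ∉ g := fun hj => hjk (FanoC_two hf (hL hg) (hne g hg) mj mk hj hlg)
      rw [(FanoC_img y hij hik hjk t g).2.2 hlg h4 h5]
      exact h3 g hg hlg

theorem FanoC_box (θ δ a b c x y z : ℝ) (hθ1 : θ ≤ 1) (hδ : 0 < δ) (ha : 0 ≤ a)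
    (hb : 0 ≤ b) (hc : 0 ≤ c) (hax : a ≤ x) (hby : b ≤ y) (hcz : c ≤ z)
    (h : a < δ * x ∨ b < δ * y ∨ c < δ * z) : θ * (a * b * c) ≤ δ * (x * (y * z)) := by
  have hx : 0 ≤ x := ha.trans hax
  have hy : 0 ≤ y := hb.trans hby
  have hz : 0 ≤ z := hc.trans hcz
  have h0 : θ * (a * b * c) ≤ a * b * c := by
    have h1 : 0 ≤ a * b * c := mul_nonneg (mul_nonneg ha hb) hc
    nlinarith only [h1, hθ1]
  refine h0.trans ?_
  rcases h with h | h | h
  · have h1 : a * (b * c) ≤ (δ * x) * (y * z) :=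
      mul_le_mul h.le (mul_le_mul hby hcz hc hy) (mul_nonneg hb hc) (mul_nonneg hδ.le hx)
    linarith only [h1]
  · have h1 : a * b ≤ x * (δ * y) := mul_le_mul hax h.le hb hx
    have h2 : a * b * c ≤ x * (δ * y) * z :=
      mul_le_mul h1 hcz hc (mul_nonneg hx (mul_nonneg hδ.le hy))
    linarith only [h2]
  · have h1 : a * b ≤ x * y := mul_le_mul hax hby hb hx
    have h2 : a * b * c ≤ x * y * (δ * z) := mul_le_mul h1 h.le hc (mul_nonneg hx hy)
    linarith only [h2]

/-- adding one line costs a factor `θ` up to a small error -/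
theorem transv_step (R : Finset α → Prop) (V : Fin 7 → Finset α)
    (hV : ∀ i j, i ≠ j → Disjoint (V i) (V j)) (θ δ : ℝ) (hθ : 0 < θ) (hθ1 : θ ≤ 1) (hδ : 0 < δ)
    (L : Finset (Finset (Fin 7))) (hL : L ⊆ fano) (i j k : Fin 7) (hij : i ≠ j) (hik : i ≠ k)
    (hjk : j ≠ k) (hf : ({i, j, k} : Finset (Fin 7)) ∈ fano)
    (hfL : ({i, j, k} : Finset (Fin 7)) ∉ L) (hD : Dens R δ θ (V i) (V j) (V k)) :
    θ * ((transv R V L).card : ℝ) - δ * ∏ l, ((V l).card : ℝ) ≤
      ((transv R V (insert {i, j, k} L)).card : ℝ) := by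
  classical
  have hsub : ∀ M : Finset (Finset (Fin 7)), transv R V M ⊆ Fintype.piFinset V :=
    fun M => Finset.filter_subset _ _
  have hcard : ((Fintype.piFinset V).card : ℝ) = ∏ l, ((V l).card : ℝ) := by
    rw [Fintype.card_piFinset]
    push_cast
    rfl
  have h1 := FanoC_double V hij hik hjk (transv R V L) (hsub L)
  have h2 := FanoC_double V hij hik hjk (transv R V (insert {i, j, k} L)) (hsub _)
  have h3 : ∀ y ∈ Fintype.piFinset V,
      θ * (((V i ×ˢ V j ×ˢ V k).filter (fun t => FanoC_upd i j k y t ∈ transv R V L)).card : ℝ) -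
        δ * (((V i).card : ℝ) * (((V j).card : ℝ) * ((V k).card : ℝ))) ≤
      (((V i ×ˢ V j ×ˢ V k).filter
        (fun t => FanoC_upd i j k y t ∈ transv R V (insert {i, j, k} L))).card : ℝ) := by
    intro y hy
    have sA : ∀ l, FanoC_A R V L y l ⊆ V l := fun l => Finset.filter_subset _ _
    have e1 : (V i ×ˢ V j ×ˢ V k).filter (fun t => FanoC_upd i j k y t ∈ transv R V L) =
        FanoC_A R V L y i ×ˢ FanoC_A R V L y j ×ˢ FanoC_A R V L y k := by
      ext t
      constructor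
      · intro h
        obtain ⟨ht, h⟩ := Finset.mem_filter.1 h
        have h' := (FanoC_mem_S R V L hL hij hik hjk hf hfL hy t ht).1 h
        exact Finset.mem_product.2 ⟨h'.1, Finset.mem_product.2 h'.2⟩
      · intro h
        obtain ⟨ha, hbc⟩ := Finset.mem_product.1 h
        obtain ⟨hb, hc⟩ := Finset.mem_product.1 hbc
        have ht : t ∈ V i ×ˢ V j ×ˢ V k :=
          Finset.mem_product.2 ⟨sA i ha, Finset.mem_product.2 ⟨sA j hb, sA k hc⟩⟩
        exact Finset.mem_filter.2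
          ⟨ht, (FanoC_mem_S R V L hL hij hik hjk hf hfL hy t ht).2 ⟨ha, hb, hc⟩⟩
    have e2 : e3 R (FanoC_A R V L y i) (FanoC_A R V L y j) (FanoC_A R V L y k) ≤
        ((V i ×ˢ V j ×ˢ V k).filter
          (fun t => FanoC_upd i j k y t ∈ transv R V (insert {i, j, k} L))).card := by
      refine Finset.card_le_card fun t ht => ?_
      obtain ⟨ht, hB⟩ := Finset.mem_filter.1 ht
      rw [← e1, Finset.mem_filter] at ht
      obtain ⟨ht, hS⟩ := ht
      rw [Finset.mem_filter]
      refine ⟨ht, FanoC_mem.2 ⟨hsub L hS, fun g hg => ?_⟩⟩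
      rw [Finset.mem_insert] at hg
      rcases hg with rfl | hg
      · have e3 : ({i, j, k} : Finset (Fin 7)).image (FanoC_upd i j k y t) =
            {t.1, t.2.1, t.2.2} := by
          rw [Finset.image_insert, Finset.image_insert, Finset.image_singleton, FanoC_upd_i,
            FanoC_upd_j hij, FanoC_upd_k hik hjk]
        rw [e3]
        exact hB.2.2.2
      · exact (FanoC_mem.1 hS).2 g hg
    have e2' : (e3 R (FanoC_A R V L y i) (FanoC_A R V L y j) (FanoC_A R V L y k) : ℝ) ≤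
        (((V i ×ˢ V j ×ˢ V k).filter
          (fun t => FanoC_upd i j k y t ∈ transv R V (insert {i, j, k} L))).card : ℝ) := by
      exact_mod_cast e2
    refine le_trans ?_ e2'
    rw [e1, Finset.card_product, Finset.card_product]
    push_cast
    have ci : ((FanoC_A R V L y i).card : ℝ) ≤ ((V i).card : ℝ) := by
      exact_mod_cast Finset.card_le_card (sA i)
    have cj : ((FanoC_A R V L y j).card : ℝ) ≤ ((V j).card : ℝ) := by
      exact_mod_cast Finset.card_le_card (sA j)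
    have ck : ((FanoC_A R V L y k).card : ℝ) ≤ ((V k).card : ℝ) := by
      exact_mod_cast Finset.card_le_card (sA k)
    have ni : (0 : ℝ) ≤ ((FanoC_A R V L y i).card : ℝ) := Nat.cast_nonneg _
    have nj : (0 : ℝ) ≤ ((FanoC_A R V L y j).card : ℝ) := Nat.cast_nonneg _
    have nk : (0 : ℝ) ≤ ((FanoC_A R V L y k).card : ℝ) := Nat.cast_nonneg _
    by_cases hbig : δ * ((V i).card : ℝ) ≤ ((FanoC_A R V L y i).card : ℝ) ∧
        δ * ((V j).card : ℝ) ≤ ((FanoC_A R V L y j).card : ℝ) ∧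
        δ * ((V k).card : ℝ) ≤ ((FanoC_A R V L y k).card : ℝ)
    · have h4 := hD _ (sA i) _ (sA j) _ (sA k) hbig.1 hbig.2.1 hbig.2.2
      have h5 : 0 ≤ δ * (((V i).card : ℝ) * (((V j).card : ℝ) * ((V k).card : ℝ))) := by
        refine mul_nonneg hδ.le (mul_nonneg (Nat.cast_nonneg _) (mul_nonneg ?_ ?_)) <;>
          exact Nat.cast_nonneg _
      linarith only [h4, h5]
    · have h4 : ((FanoC_A R V L y i).card : ℝ) < δ * ((V i).card : ℝ) ∨
          ((FanoC_A R V L y j).card : ℝ) < δ * ((V j).card : ℝ) ∨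
          ((FanoC_A R V L y k).card : ℝ) < δ * ((V k).card : ℝ) := by
        by_contra hc
        rw [not_or, not_or, not_lt, not_lt, not_lt] at hc
        exact hbig hc
      have h5 := FanoC_box θ δ _ _ _ _ _ _ hθ1 hδ ni nj nk ci cj ck h4
      have h6 : (0 : ℝ) ≤ (e3 R (FanoC_A R V L y i) (FanoC_A R V L y j)
        (FanoC_A R V L y k) : ℝ) := Nat.cast_nonneg _
      linarith only [h5, h6]
  have h4 := Finset.sum_le_sum h3
  rw [Finset.sum_sub_distrib, ← Finset.mul_sum, Finset.sum_const, nsmul_eq_mul] at h4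
  have h1' : (∑ y ∈ Fintype.piFinset V, (((V i ×ˢ V j ×ˢ V k).filter
      (fun t => FanoC_upd i j k y t ∈ transv R V L)).card : ℝ)) =
      ((transv R V L).card : ℝ) *
        (((V i).card : ℝ) * (((V j).card : ℝ) * ((V k).card : ℝ))) := by
    exact_mod_cast h1
  have h2' : (∑ y ∈ Fintype.piFinset V, (((V i ×ˢ V j ×ˢ V k).filter
      (fun t => FanoC_upd i j k y t ∈ transv R V (insert {i, j, k} L))).card : ℝ)) =
      ((transv R V (insert {i, j, k} L)).card : ℝ) *
        (((V i).card : ℝ) * (((V j).card : ℝ) * ((V k).card : ℝ))) := by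
    exact_mod_cast h2
  rw [h1', h2', hcard] at h4
  by_cases hm : 0 < ((V i).card : ℝ) * (((V j).card : ℝ) * ((V k).card : ℝ))
  · refine le_of_mul_le_mul_right ?_ hm
    linarith only [h4]
  · have hz : ∃ l, (V l).card = 0 := by
      by_contra hc
      rw [not_exists] at hc
      apply hm
      have h5 : ∀ l, 0 < ((V l).card : ℝ) := fun l => by
        exact_mod_cast Nat.pos_of_ne_zero (hc l)
      exact mul_pos (h5 i) (mul_pos (h5 j) (h5 k))
    obtain ⟨l, hl⟩ := hz
    have h5 : ∏ l, ((V l).card : ℝ) = 0 :=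
      Finset.prod_eq_zero (Finset.mem_univ l) (by rw [hl, Nat.cast_zero])
    have h6 : (transv R V L).card = 0 := by
      have h7 : (Fintype.piFinset V).card = 0 := by
        have h8 := hcard
        rw [h5] at h8
        exact_mod_cast h8
      exact Nat.le_zero.1 (h7 ▸ Finset.card_le_card (hsub L))
    rw [h5, h6, Nat.cast_zero, mul_zero, mul_zero, sub_zero]
    exact Nat.cast_nonneg _

theorem FanoC_iter (R : Finset α → Prop) (V : Fin 7 → Finset α)
    (hV : ∀ i j, i ≠ j → Disjoint (V i) (V j)) (θ δ : ℝ)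
    (hθ : 0 < θ) (hθ1 : θ ≤ 1) (hδ : 0 < δ)
    (hD : ∀ i j k, i ≠ j → i ≠ k → j ≠ k → ({i, j, k} : Finset (Fin 7)) ∈ fano →
      Dens R δ θ (V i) (V j) (V k)) (L : Finset (Finset (Fin 7))) :
    L ⊆ fano → (θ ^ L.card - L.card * δ) * ∏ l, ((V l).card : ℝ) ≤ ((transv R V L).card : ℝ) := by
  classical
  have hP : (0 : ℝ) ≤ ∏ l, ((V l).card : ℝ) := Finset.prod_nonneg fun _ _ => Nat.cast_nonneg _
  have h3 := FanoC_card3
  induction L using Finset.induction_on with
  | empty =>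
    intro _
    have h0 : transv R V ∅ = Fintype.piFinset V :=
      Finset.filter_true_of_mem fun x _ f hf => absurd hf (Finset.notMem_empty f)
    rw [h0, Fintype.card_piFinset, Finset.card_empty, pow_zero, Nat.cast_zero, zero_mul,
      sub_zero, one_mul]
    push_cast
    exact le_refl _
  | insert f L hfL ih =>
    intro hL
    have hf : f ∈ fano := hL (Finset.mem_insert_self f L)
    have hL' : L ⊆ fano := (Finset.subset_insert f L).trans hL
    obtain ⟨i, j, k, hij, hik, hjk, rfl⟩ := Finset.card_eq_three.1 (h3 f hf)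
    have h1 := transv_step R V hV θ δ hθ hθ1 hδ L hL' i j k hij hik hjk hf hfL
      (hD i j k hij hik hjk hf)
    refine le_trans ?_ h1
    have h2 := mul_le_mul_of_nonneg_left (ih hL') hθ.le
    rw [Finset.card_insert_of_notMem hfL, pow_succ]
    push_cast
    have h4 : 0 ≤ (L.card : ℝ) * δ * ∏ l, ((V l).card : ℝ) :=
      mul_nonneg (mul_nonneg (Nat.cast_nonneg _) hδ.le) hP
    have h5 : θ * ((L.card : ℝ) * δ * ∏ l, ((V l).card : ℝ)) ≤
        (L.card : ℝ) * δ * ∏ l, ((V l).card : ℝ) := by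
      nlinarith only [h4, hθ1]
    nlinarith only [h2, h5]

theorem fano_count (R : Finset α → Prop) (V : Fin 7 → Finset α)
    (hV : ∀ i j, i ≠ j → Disjoint (V i) (V j)) (hne : ∀ i, (V i).Nonempty) (θ δ : ℝ)
    (hθ : 0 < θ) (hθ1 : θ ≤ 1) (hδ : 0 < δ) (hδθ : 7 * δ < θ ^ 7)
    (hD : ∀ i j k, i ≠ j → i ≠ k → j ≠ k → ({i, j, k} : Finset (Fin 7)) ∈ fano →
      Dens R δ θ (V i) (V j) (V k)) :
    BlueFano R (Finset.univ.biUnion V) := by
  have h1 := FanoC_iter R V hV θ δ hθ hθ1 hδ hD fano (Finset.Subset.refl _)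
  rw [FanoC_card7] at h1
  have hP : (0 : ℝ) < ∏ l, ((V l).card : ℝ) := by
    refine Finset.prod_pos fun l _ => ?_
    exact_mod_cast (hne l).card_pos
  have h2 : (0 : ℝ) < (θ ^ 7 - ((7 : ℕ) : ℝ) * δ) * ∏ l, ((V l).card : ℝ) := by
    refine mul_pos ?_ hP
    push_cast
    linarith only [hδθ]
  have h3 : 0 < (transv R V fano).card := by
    exact_mod_cast h2.trans_le h1
  obtain ⟨x, hx⟩ := Finset.card_pos.1 h3
  obtain ⟨hx1, hx2⟩ := FanoC_mem.1 hx
  rw [Fintype.mem_piFinset] at hx1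
  refine ⟨x, ?_, fun i => Finset.mem_biUnion.2 ⟨i, Finset.mem_univ i, hx1 i⟩, hx2⟩
  intro i j hij
  by_contra hne'
  exact (Finset.disjoint_left.1 (hV i j hne')) (hx1 i) (hij ▸ hx1 j)

end

end Pool.MP7783b9
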