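import Pool.Agent.H.MP_7783b9_co.R.Box

/-!
# Disjoint parts and their unions
-/

set_option autoImplicit false

open Finset

namespace Pool.MP7783b9

/-- pairwise disjoint subsets of equal size -/
theorem disjoint_parts {α : Type*} [DecidableEq α] (A : Finset α) (r N : ℕ)
    (h : r * N ≤ A.card) :
    ∃ V : Fin r → Finset α, (∀ i, V i ⊆ A ∧ (V i).card = N) ∧
      ∀ i j, i ≠ j → Disjoint (V i) (V j) := by
  induction r generalizing A with
  | zero =>
    exact ⟨fun i => i.elim0, fun i => i.elim0, fun i => i.elim0⟩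
  | succ r ih =>
    have h1 : (r + 1) * N = r * N + N := Nat.succ_mul r N
    obtain ⟨V0, hV0, hc0⟩ := Finset.exists_subset_card_eq (s := A) (n := N) (by omega)
    have h2 : r * N ≤ (A \ V0).card := by
      rw [Finset.card_sdiff_of_subset hV0, hc0]
      omega
    obtain ⟨V, hV, hd⟩ := ih (A \ V0) h2
    have h3 : ∀ i, Disjoint V0 (V i) := fun i =>
      Finset.disjoint_of_subset_right (hV i).1 Finset.disjoint_sdiff
    refine ⟨Fin.cons V0 V, ?_, ?_⟩
    · intro i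
      refine Fin.cases ?_ (fun i => ?_) i
      · exact ⟨hV0, hc0⟩
      · exact ⟨(hV i).1.trans Finset.sdiff_subset, (hV i).2⟩
    · intro i j
      refine Fin.cases ?_ (fun i => ?_) i
      · refine Fin.cases ?_ (fun j => ?_) j
        · intro hne
          exact absurd rfl hne
        · intro _
          exact h3 j
      · refine Fin.cases ?_ (fun j => ?_) j
        · intro _
          exact (h3 i).symm
        · intro hne
          exact hd i j fun he => hne (by rw [he])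

theorem Parts_nondist {ι : Type*} [DecidableEq ι] (K : Finset ι) :
    ((K ×ˢ K ×ˢ K).filter fun p => p.1 = p.2.1 ∨ p.1 = p.2.2 ∨ p.2.1 = p.2.2).card ≤
      3 * K.card ^ 2 := by
  have h : ((K ×ˢ K ×ˢ K).filter fun p => p.1 = p.2.1 ∨ p.1 = p.2.2 ∨ p.2.1 = p.2.2) ⊆
      ((K ×ˢ K).image fun p => (p.1, p.1, p.2)) ∪
        (((K ×ˢ K).image fun p => (p.1, p.2, p.1)) ∪ ((K ×ˢ K).image fun p => (p.1, p.2, p.2))) := by
    rintro ⟨i, j, k⟩ hp
    rw [Finset.mem_filter, Finset.mem_product, Finset.mem_product] at hp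
    obtain ⟨⟨hi, hj, hk⟩, he⟩ := hp
    simp only [Finset.mem_union, Finset.mem_image, Finset.mem_product]
    rcases he with he | he | he
    · exact Or.inl ⟨(i, k), ⟨hi, hk⟩, by simp only at he ⊢; rw [← he]⟩
    · exact Or.inr (Or.inl ⟨(i, j), ⟨hi, hj⟩, by simp only at he ⊢; rw [← he]⟩)
    · exact Or.inr (Or.inr ⟨(i, j), ⟨hi, hj⟩, by simp only at he ⊢; rw [← he]⟩)
  have hc : (K ×ˢ K).card = K.card ^ 2 := by rw [Finset.card_product, sq]
  refine (Finset.card_le_card h).trans ?_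
  refine (Finset.card_union_le _ _).trans ?_
  have h1 := Finset.card_union_le ((K ×ˢ K).image fun p => (p.1, p.2, p.1))
    ((K ×ˢ K).image fun p => (p.1, p.2, p.2))
  have h2 := Finset.card_image_le (s := K ×ˢ K) (f := fun p : ι × ι => (p.1, p.1, p.2))
  have h3 := Finset.card_image_le (s := K ×ˢ K) (f := fun p : ι × ι => (p.1, p.2, p.1))
  have h4 := Finset.card_image_le (s := K ×ˢ K) (f := fun p : ι × ι => (p.1, p.2, p.2))
  rw [hc] at h2 h3 h4
  omega

theorem Parts_e3_le_sum {α ι : Type*} [DecidableEq α] [DecidableEq ι] (R : Finset α → Prop)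
    (V : ι → Finset α) (K : Finset ι) :
    e3 R (K.biUnion V) (K.biUnion V) (K.biUnion V) ≤
      ∑ p ∈ K ×ˢ K ×ˢ K, e3 R (V p.1) (V p.2.1) (V p.2.2) := by
  classical
  unfold e3
  refine (Finset.card_le_card ?_).trans Finset.card_biUnion_le
  rintro ⟨x, y, z⟩ hp
  rw [Finset.mem_filter, Finset.mem_product, Finset.mem_product, Finset.mem_biUnion,
    Finset.mem_biUnion, Finset.mem_biUnion] at hp
  obtain ⟨⟨⟨i, hi, hx⟩, ⟨j, hj, hy⟩, ⟨k, hk, hz⟩⟩, hb⟩ := hp
  rw [Finset.mem_biUnion]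
  refine ⟨(i, j, k), ?_, ?_⟩
  · rw [Finset.mem_product, Finset.mem_product]
    exact ⟨hi, hj, hk⟩
  · rw [Finset.mem_filter, Finset.mem_product, Finset.mem_product]
    exact ⟨⟨hx, hy, hz⟩, hb⟩

/-- the union of `q` parts all of whose triples are sparse is sparse -/
theorem union_sparse {α : Type} [DecidableEq α] (R : Finset α → Prop) {r : ℕ}
    (V : Fin r → Finset α) (N : ℕ) (hN : ∀ i, (V i).card = N)
    (hV : ∀ i j, i ≠ j → Disjoint (V i) (V j)) (K : Finset (Fin r)) (q : ℕ) (hq : 0 < q)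
    (hK : K.card = q) (θ : ℝ) (hθ : 0 ≤ θ)
    (h : ∀ i ∈ K, ∀ j ∈ K, ∀ k ∈ K, i ≠ j → i ≠ k → j ≠ k →
      (e3 R (V i) (V j) (V k) : ℝ) ≤ θ * (N : ℝ) ^ 3) :
    (e3 R (K.biUnion V) (K.biUnion V) (K.biUnion V) : ℝ) ≤
      (θ + 3 / q) * ((K.biUnion V).card : ℝ) ^ 3 := by
  have hq0 : (0 : ℝ) < q := by exact_mod_cast hq
  have hcard : (K.biUnion V).card = q * N := by
    rw [Finset.card_biUnion fun i _ j _ hij => hV i j hij, Finset.sum_congr rfl fun i _ => hN i,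
      Finset.sum_const, hK, smul_eq_mul]
  have h1 : (e3 R (K.biUnion V) (K.biUnion V) (K.biUnion V) : ℝ) ≤
      ∑ p ∈ K ×ˢ K ×ˢ K, (e3 R (V p.1) (V p.2.1) (V p.2.2) : ℝ) := by
    exact_mod_cast Parts_e3_le_sum R V K
  have hN0 : (0 : ℝ) ≤ (N : ℝ) ^ 3 := by positivity
  have h2 : ∀ p ∈ K ×ˢ K ×ˢ K, (e3 R (V p.1) (V p.2.1) (V p.2.2) : ℝ) ≤
      θ * (N : ℝ) ^ 3 +
        if p.1 = p.2.1 ∨ p.1 = p.2.2 ∨ p.2.1 = p.2.2 then (N : ℝ) ^ 3 else 0 := by
    rintro ⟨i, j, k⟩ hp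
    rw [Finset.mem_product, Finset.mem_product] at hp
    obtain ⟨hi, hj, hk⟩ := hp
    simp only at hi hj hk ⊢
    split_ifs with hc
    · have h3 := e3_le R (V i) (V j) (V k)
      rw [hN, hN, hN] at h3
      have h4 : (e3 R (V i) (V j) (V k) : ℝ) ≤ (N : ℝ) ^ 3 := by
        have h5 : (e3 R (V i) (V j) (V k) : ℝ) ≤ (N * N * N : ℕ) := by exact_mod_cast h3
        refine h5.trans (le_of_eq ?_)
        push_cast
        ring
      have h6 : 0 ≤ θ * (N : ℝ) ^ 3 := mul_nonneg hθ hN0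
      linarith
    · push Not at hc
      rw [add_zero]
      exact h i hi j hj k hk hc.1 hc.2.1 hc.2.2
  have h3 := h1.trans (Finset.sum_le_sum h2)
  rw [Finset.sum_add_distrib, Finset.sum_const, ← Finset.sum_filter, Finset.sum_const,
    nsmul_eq_mul, nsmul_eq_mul, Finset.card_product, Finset.card_product, hK] at h3
  have h4 := Parts_nondist K
  rw [hK] at h4
  have h5 : (((K ×ˢ K ×ˢ K).filter fun p => p.1 = p.2.1 ∨ p.1 = p.2.2 ∨ p.2.1 = p.2.2).card : ℝ) ≤
      3 * (q : ℝ) ^ 2 := by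
    exact_mod_cast h4
  have h6 := mul_le_mul_of_nonneg_right h5 hN0
  refine h3.trans ?_
  rw [hcard]
  have h7 : (θ + 3 / (q : ℝ)) * ((q * N : ℕ) : ℝ) ^ 3 =
      ((q * (q * q) : ℕ) : ℝ) * (θ * (N : ℝ) ^ 3) + 3 * (q : ℝ) ^ 2 * (N : ℝ) ^ 3 := by
    push_cast
    field_simp
  rw [h7]
  linarith

end Pool.MP7783b9
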