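import Pool.Agent.H.MP_7783b9_co.R.Multi
import Pool.Agent.H.MP_7783b9_co.R.FanoC
import Pool.Agent.H.MP_7783b9_co.R.Parts
import Pool.Agent.H.MP_7783b9_co.B.Ram

/-!
# A set without blue Fano plane contains a subset of linear size and small blue density
-/

set_option autoImplicit false

open Finset

namespace Pool.MP7783b9

/-- a ternary relation which is invariant under permutations -/
theorem SparseSet_perm {β : Type} [DecidableEq β] (F : β → β → β → Prop)
    (hrot : ∀ x y z, F x y z → F y z x) (hswap : ∀ x y z, F x y z → F x z y) {a b c x y z : β}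
    (h : ({x, y, z} : Finset β) = {a, b, c}) (hxy : x ≠ y) (hxz : x ≠ z) (hyz : y ≠ z)
    (hF : F a b c) : F x y z := by
  have hx : x ∈ ({a, b, c} : Finset β) := by rw [← h]; simp
  have hy : y ∈ ({a, b, c} : Finset β) := by rw [← h]; simp
  have hz : z ∈ ({a, b, c} : Finset β) := by rw [← h]; simp
  have h1 := hrot _ _ _ hF
  have h2 := hrot _ _ _ h1
  have h3 := hswap _ _ _ hF
  have h4 := hswap _ _ _ h1
  have h5 := hswap _ _ _ h2
  simp only [Finset.mem_insert, Finset.mem_singleton] at hx hy hz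
  rcases hx with rfl | rfl | rfl <;> rcases hy with rfl | rfl | rfl <;>
    rcases hz with rfl | rfl | rfl <;> first | assumption | (exact absurd rfl ‹_›)

section

variable {α : Type} [DecidableEq α]

theorem SparseSet_rot {R : Finset α → Prop} {δ θ : ℝ} {X Y Z : Finset α}
    (h : Dens R δ θ X Y Z) : Dens R δ θ Y Z X := by
  intro A hA B hB C hC h1 h2 h3
  have h4 := h C hC A hA B hB h3 h1 h2
  rw [← e3_rot R C A B]
  refine le_trans (le_of_eq ?_) h4
  ring

theorem SparseSet_swap {R : Finset α → Prop} {δ θ : ℝ} {X Y Z : Finset α}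
    (h : Dens R δ θ X Y Z) : Dens R δ θ X Z Y := by
  intro A hA B hB C hC h1 h2 h3
  have h4 := h A hA C hC B hB h1 h3 h2
  rw [← e3_swap R A C B]
  refine le_trans (le_of_eq ?_) h4
  ring

theorem SparseSet_mono {R : Finset α → Prop} {U W : Finset α} (h : U ⊆ W) (hB : BlueFano R U) :
    BlueFano R W := by
  obtain ⟨ψ, h1, h2, h3⟩ := hB
  exact ⟨ψ, h1, fun i => h (h2 i), h3⟩

theorem SparseSet_sum (R : Finset α → Prop) (A : Finset α) :
    e3 R A A A = ∑ x ∈ A, (bpairs R A x).card := by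
  classical
  unfold e3
  rw [Finset.card_filter, Finset.sum_product]
  refine Finset.sum_congr rfl fun x _ => ?_
  unfold bpairs
  rw [Finset.card_filter]

end

theorem sparse_set (ε : ℝ) (hε : 0 < ε) :
    ∃ γ : ℝ, 0 < γ ∧ ∃ m₀ : ℕ, ∀ {α : Type} [DecidableEq α] (R : Finset α → Prop)
      (A : Finset α), m₀ ≤ A.card → ¬ BlueFano R A →
      ∃ A' ⊆ A, γ * (A.card : ℝ) ≤ (A'.card : ℝ) ∧
        (e3 R A' A' A' : ℝ) ≤ ε * (A'.card : ℝ) ^ 3 := by
  classical
  obtain ⟨θ, hθ⟩ : ∃ θ : ℝ, θ = min (ε / 2) 1 := ⟨_, rfl⟩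
  have hθ0 : 0 < θ := by rw [hθ]; exact lt_min (by linarith) one_pos
  have hθ1 : θ ≤ 1 := by rw [hθ]; exact min_le_right _ _
  have hθε : θ ≤ ε / 2 := by rw [hθ]; exact min_le_left _ _
  obtain ⟨q, hq⟩ : ∃ q : ℕ, 0 < q ∧ 3 / (q : ℝ) ≤ ε / 2 := by
    obtain ⟨n, hn⟩ := exists_nat_ge (6 / ε)
    refine ⟨n + 1, Nat.succ_pos n, ?_⟩
    have h1 : (0 : ℝ) < (n + 1 : ℕ) := by exact_mod_cast Nat.succ_pos n
    rw [div_le_iff₀ h1]
    have h2 : 6 / ε ≤ ((n + 1 : ℕ) : ℝ) := hn.trans (by push_cast; linarith)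
    rw [div_le_iff₀ hε] at h2
    linarith
  obtain ⟨hq0, hqε⟩ := hq
  obtain ⟨s, hs⟩ := ram3 q
  obtain ⟨r, hr⟩ : ∃ r : ℕ, r = max s 1 := ⟨_, rfl⟩
  have hr1 : 1 ≤ r := by rw [hr]; exact le_max_right _ _
  have hsr : s ≤ r := by rw [hr]; exact le_max_left _ _
  obtain ⟨δ, hδ⟩ : ∃ δ : ℝ, δ = (θ / 2) ^ 7 / 8 := ⟨_, rfl⟩
  have hθ7 : 0 < (θ / 2) ^ 7 := by positivity
  have hθ7' : (θ / 2) ^ 7 ≤ 1 := pow_le_one₀ (by linarith) (by linarith)
  have hδ0 : 0 < δ := by rw [hδ]; linarith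
  have hδ1 : δ ≤ 1 := by rw [hδ]; linarith
  have hδθ : 7 * δ < (θ / 2) ^ 7 := by rw [hδ]; linarith
  obtain ⟨J, hJ⟩ : ∃ J : Finset (Fin r × Fin r × Fin r), ∀ T : Fin r × Fin r × Fin r,
      T ∈ J ↔ T.1 ≠ T.2.1 ∧ T.1 ≠ T.2.2 ∧ T.2.1 ≠ T.2.2 :=
    ⟨Finset.univ.filter fun T => T.1 ≠ T.2.1 ∧ T.1 ≠ T.2.2 ∧ T.2.1 ≠ T.2.2, fun T => by simp⟩
  obtain ⟨ρ, hρ0, hρ1, hmulti⟩ := multi r J (fun T hT => (hJ T).1 hT) θ hθ0 hθ1 δ hδ0 hδ1
  have hrR : (0 : ℝ) < r := by exact_mod_cast hr1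
  have hqR : (0 : ℝ) < q := by exact_mod_cast hq0
  refine ⟨q * ρ / (2 * r), by positivity, 2 * r, ?_⟩
  intro α _ R A hA hno
  obtain ⟨N, hN⟩ : ∃ N : ℕ, N = A.card / r := ⟨_, rfl⟩
  have hrN : r * N ≤ A.card := by rw [hN]; exact Nat.mul_div_le _ _
  have hN2 : 2 ≤ N := by
    rw [hN, Nat.le_div_iff_mul_le hr1]
    exact hA
  have hN0 : 0 < N := by omega
  have hAN : A.card ≤ 2 * r * N := by
    have h1 : A.card < r * (N + 1) := by
      rw [hN]
      have := Nat.lt_mul_div_succ A.card hr1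
      exact this
    nlinarith
  obtain ⟨V, hV, hVd⟩ := disjoint_parts A r N hrN
  obtain ⟨N', hN', V', hV', hdich⟩ := hmulti R N V (fun i => (hV i).2) hN0
  have hNR : (0 : ℝ) < N := by exact_mod_cast hN0
  have hN'0 : (0 : ℝ) < N' := lt_of_lt_of_le (by positivity) hN'
  have hsub : ∀ i, V' i ⊆ A := fun i => (hV' i).1.trans (hV i).1
  have hdis : ∀ i j, i ≠ j → Disjoint (V' i) (V' j) := fun i j hij =>
    Finset.disjoint_of_subset_left (hV' i).1
      (Finset.disjoint_of_subset_right (hV' j).1 (hVd i j hij))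
  rcases hs (fun f : Finset (Fin r) => ∀ i j k : Fin r, i ≠ j → i ≠ k → j ≠ k → f = {i, j, k} →
    Sparse R δ θ (V' i) (V' j) (V' k)) Finset.univ (by simpa using hsr) with hbf | ⟨K, -, hKq, hK⟩
  · exfalso
    obtain ⟨ψ, hψi, -, hψ⟩ := hbf
    apply hno
    refine SparseSet_mono ?_ (fano_count R (fun i => V' (ψ i)) (fun i j hij => hdis _ _
      fun h => hij (hψi h)) (fun i => ?_) (θ / 2) δ (by linarith) (by linarith) hδ0 hδθ ?_)
    · intro x hx
      rw [Finset.mem_biUnion] at hx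
      obtain ⟨i, -, hi⟩ := hx
      exact hsub _ hi
    · rw [← Finset.card_pos, (hV' (ψ i)).2]
      exact_mod_cast hN'0
    · intro i j k hij hik hjk hf
      have h1 := hψ _ hf
      push Not at h1
      obtain ⟨a, b, c, hab, hac, hbc, himg, hns⟩ := h1
      have h2 := (hdich (a, b, c) ((hJ _).2 ⟨hab, hac, hbc⟩)).resolve_left hns
      have h3 : ({ψ i, ψ j, ψ k} : Finset (Fin r)) = {a, b, c} := by
        rw [← himg]
        simp [Finset.image_insert]
      exact SparseSet_perm (fun x y z => Dens R δ (θ / 2) (V' x) (V' y) (V' z))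
        (fun x y z h => SparseSet_rot h) (fun x y z h => SparseSet_swap h) h3
        (fun h => hij (hψi h)) (fun h => hik (hψi h)) (fun h => hjk (hψi h)) h2
  · have hcard : (K.biUnion V').card = q * N' := by
      rw [Finset.card_biUnion (fun i _ j _ hij => hdis i j hij),
        Finset.sum_congr rfl fun i _ => (hV' i).2, Finset.sum_const, hKq, smul_eq_mul]
    refine ⟨K.biUnion V', ?_, ?_, ?_⟩
    · intro x hx
      rw [Finset.mem_biUnion] at hx
      obtain ⟨i, -, hi⟩ := hx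
      exact hsub _ hi
    · rw [hcard]
      push_cast
      have h1 : (A.card : ℝ) ≤ 2 * r * N := by exact_mod_cast hAN
      calc (q : ℝ) * ρ / (2 * r) * A.card ≤ q * ρ / (2 * r) * (2 * r * N) :=
            mul_le_mul_of_nonneg_left h1 (by positivity)
        _ = q * (ρ * N) := by field_simp
        _ ≤ q * N' := mul_le_mul_of_nonneg_left hN' hqR.le
    · have h1 := union_sparse R V' N' (fun i => (hV' i).2) hdis K q hq0 hKq θ hθ0.le (by
        intro i hi j hj k hk hij hik hjk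
        have hsubK : ({i, j, k} : Finset (Fin r)) ⊆ K := by
          intro x hx
          simp only [Finset.mem_insert, Finset.mem_singleton] at hx
          rcases hx with rfl | rfl | rfl <;> assumption
        have hc3 : ({i, j, k} : Finset (Fin r)).card = 3 :=
          Finset.card_eq_three.2 ⟨i, j, k, hij, hik, hjk, rfl⟩
        have h2 := hK _ hsubK hc3 i j k hij hik hjk rfl
        have hle : ∀ l, δ * ((V' l).card : ℝ) ≤ ((V' l).card : ℝ) := fun l =>
          mul_le_of_le_one_left (Nat.cast_nonneg _) hδ1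
        have h3 := h2 _ subset_rfl _ subset_rfl _ subset_rfl (hle i) (hle j) (hle k)
        rw [(hV' i).2, (hV' j).2, (hV' k).2] at h3
        refine h3.trans (le_of_eq ?_)
        ring)
      refine h1.trans (mul_le_mul_of_nonneg_right ?_ (by positivity))
      linarith

/-- a subset of linear size in which all blue degrees are small -/
theorem sparse_deg (ε : ℝ) (hε : 0 < ε) :
    ∃ γ : ℝ, 0 < γ ∧ ∃ m₀ : ℕ, ∀ {α : Type} [DecidableEq α] (R : Finset α → Prop)
      (A : Finset α), m₀ ≤ A.card → ¬ BlueFano R A →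
      ∃ A' ⊆ A, γ * (A.card : ℝ) ≤ (A'.card : ℝ) ∧ dense R A' ε = ∅ := by
  classical
  obtain ⟨γ, hγ, m₀, hm⟩ := sparse_set (ε / 8) (by linarith)
  refine ⟨γ / 2, by linarith, m₀, ?_⟩
  intro α _ R A hA hno
  obtain ⟨A', hA', hcard, he⟩ := hm R A hA hno
  obtain ⟨Bad, hBad⟩ : ∃ Bad : Finset α, Bad = A'.filter fun x =>
      ε / 4 * (A'.card : ℝ) ^ 2 ≤ ((bpairs R A' x).card : ℝ) := ⟨_, rfl⟩
  have hBsub : Bad ⊆ A' := by rw [hBad]; exact Finset.filter_subset _ _
  have hB : 2 * (Bad.card : ℝ) ≤ A'.card := by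
    rcases Nat.eq_zero_or_pos A'.card with h0 | h0
    · have h1 : Bad.card ≤ A'.card := Finset.card_le_card hBsub
      have h2 : Bad.card = 0 := by omega
      rw [h2, h0]
      simp
    · have h1 : (Bad.card : ℝ) * (ε / 4 * (A'.card : ℝ) ^ 2) ≤ (e3 R A' A' A' : ℝ) := by
        rw [SparseSet_sum]
        push_cast
        calc (Bad.card : ℝ) * (ε / 4 * (A'.card : ℝ) ^ 2) =
              ∑ _x ∈ Bad, ε / 4 * (A'.card : ℝ) ^ 2 := by
              rw [Finset.sum_const, nsmul_eq_mul]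
          _ ≤ ∑ x ∈ Bad, ((bpairs R A' x).card : ℝ) := by
              refine Finset.sum_le_sum fun x hx => ?_
              rw [hBad, Finset.mem_filter] at hx
              exact hx.2
          _ ≤ ∑ x ∈ A', ((bpairs R A' x).card : ℝ) :=
              Finset.sum_le_sum_of_subset_of_nonneg hBsub fun x _ _ => Nat.cast_nonneg _
      have h2 := h1.trans he
      have hA0 : (0 : ℝ) < A'.card := by exact_mod_cast h0
      have h3 : 0 < ε / 8 * (A'.card : ℝ) ^ 2 := by positivity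
      have h4 : 2 * (Bad.card : ℝ) * (ε / 8 * (A'.card : ℝ) ^ 2) ≤
          A'.card * (ε / 8 * (A'.card : ℝ) ^ 2) := by
        calc 2 * (Bad.card : ℝ) * (ε / 8 * (A'.card : ℝ) ^ 2) =
              (Bad.card : ℝ) * (ε / 4 * (A'.card : ℝ) ^ 2) := by ring
          _ ≤ ε / 8 * (A'.card : ℝ) ^ 3 := h2
          _ = A'.card * (ε / 8 * (A'.card : ℝ) ^ 2) := by ring
      exact le_of_mul_le_mul_right h4 h3
  have hc : ((A' \ Bad).card : ℝ) = A'.card - Bad.card := by
    rw [Finset.card_sdiff_of_subset hBsub, Nat.cast_sub (Finset.card_le_card hBsub)]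
  refine ⟨A' \ Bad, Finset.sdiff_subset.trans hA', ?_, ?_⟩
  · rw [hc]
    linarith
  · rw [Finset.eq_empty_iff_forall_notMem]
    intro x hx
    rw [mem_dense] at hx
    obtain ⟨hx1, hx2⟩ := hx
    rw [Finset.mem_sdiff] at hx1
    have h1 : ((bpairs R A' x).card : ℝ) < ε / 4 * (A'.card : ℝ) ^ 2 := by
      by_contra h2
      apply hx1.2
      rw [hBad, Finset.mem_filter]
      exact ⟨hx1.1, not_lt.1 h2⟩
    have h2 : ((bpairs R (A' \ Bad) x).card : ℝ) ≤ ((bpairs R A' x).card : ℝ) := by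
      have h3 : bpairs R (A' \ Bad) x ⊆ bpairs R A' x := by
        rintro ⟨p, q⟩ hp
        rw [mem_bpairs] at hp ⊢
        exact ⟨Finset.sdiff_subset hp.1, Finset.sdiff_subset hp.2.1, hp.2.2⟩
      exact_mod_cast Finset.card_le_card h3
    have h3 : (A'.card : ℝ) ≤ 2 * ((A' \ Bad).card : ℝ) := by rw [hc]; linarith
    have h4 : (A'.card : ℝ) ^ 2 ≤ (2 * ((A' \ Bad).card : ℝ)) ^ 2 :=
      pow_le_pow_left₀ (Nat.cast_nonneg _) h3 2
    have h5 : ε / 4 * (A'.card : ℝ) ^ 2 ≤ ε * ((A' \ Bad).card : ℝ) ^ 2 := by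
      calc ε / 4 * (A'.card : ℝ) ^ 2 ≤ ε / 4 * (2 * ((A' \ Bad).card : ℝ)) ^ 2 :=
            mul_le_mul_of_nonneg_left h4 (by linarith)
        _ = ε * ((A' \ Bad).card : ℝ) ^ 2 := by ring
    linarith

end Pool.MP7783b9
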