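import Pool.Agent.H.MP_7783b9_co.R.BuiltL
import Pool.Agent.H.MP_7783b9_co.R.SparseSet
import Pool.Agent.H.MP_7783b9_co.B.Fixed

/-!
# Fano-goodness depends on the core only
-/

set_option autoImplicit false

open Finset

namespace Pool.MP7783b9

/-- extension of a copy by a rooted copy of the next piece -/
private theorem CoreIff_ext {V α : Type*} [DecidableEq V] [DecidableEq α] {S : Finset V}
    {E : Finset (Finset V)} (hb : ∀ f ∈ E, f ⊆ S) {u : V} {K : Finset V} {E' : Finset (Finset V)}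
    (hu : u ∈ S) (hd : Disjoint S K) (hE' : ∀ f ∈ E', f ⊆ insert u K)
    {R : Finset α → Prop} {U : Finset α} {φ : V → α}
    (hφ : IsCopy R S E U φ) {ψ : V → α}
    (hψ : IsCopy R (insert u K) E' (insert (φ u) (U \ S.image φ)) ψ) (hψu : ψ u = φ u) :
    HasRed R (S ∪ K) (E ∪ E') U := by
  obtain ⟨hinj, hmem, hred⟩ := hφ
  obtain ⟨hinj1, hmem1, hred1⟩ := hψ
  let φ' : V → α := fun v => if v ∈ K then ψ v else φ v
  have huK : u ∉ K := fun h => Finset.disjoint_left.1 hd hu h
  have hK : ∀ v ∈ K, φ' v = ψ v := fun v hv => by simp only [φ', if_pos hv]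
  have hS : ∀ v ∉ K, φ' v = φ v := fun v hv => by simp only [φ', if_neg hv]
  have hSK : ∀ v ∈ S, v ∉ K := fun v hv hv' => Finset.disjoint_left.1 hd hv hv'
  have hKW : ∀ v ∈ K, ψ v ∈ U \ S.image φ := by
    intro v hv
    have h1 := hmem1 v (Finset.mem_insert_of_mem hv)
    rcases Finset.mem_insert.1 h1 with h2 | h2
    · exfalso
      rw [← hψu] at h2
      have h3 := hinj1 (Finset.mem_coe.2 (Finset.mem_insert_of_mem hv))
        (Finset.mem_coe.2 (Finset.mem_insert_self u K)) h2
      rw [h3] at hv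
      exact huK hv
    · exact h2
  have hinj' : Set.InjOn φ' (S ∪ K : Finset V) := by
    intro x hx y hy hxy
    have hx' := Finset.mem_union.1 (Finset.mem_coe.1 hx)
    have hy' := Finset.mem_union.1 (Finset.mem_coe.1 hy)
    by_cases hxK : x ∈ K
    · by_cases hyK : y ∈ K
      · rw [hK x hxK, hK y hyK] at hxy
        exact hinj1 (Finset.mem_coe.2 (Finset.mem_insert_of_mem hxK))
          (Finset.mem_coe.2 (Finset.mem_insert_of_mem hyK)) hxy
      · exfalso
        have hyS : y ∈ S := hy'.resolve_right hyK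
        have h1 := (Finset.mem_sdiff.1 (hKW x hxK)).2
        rw [hK x hxK, hS y hyK] at hxy
        rw [hxy] at h1
        exact h1 (Finset.mem_image_of_mem φ hyS)
    · have hxS : x ∈ S := hx'.resolve_right hxK
      by_cases hyK : y ∈ K
      · exfalso
        have h1 := (Finset.mem_sdiff.1 (hKW y hyK)).2
        rw [hS x hxK, hK y hyK] at hxy
        rw [← hxy] at h1
        exact h1 (Finset.mem_image_of_mem φ hxS)
      · have hyS : y ∈ S := hy'.resolve_right hyK
        rw [hS x hxK, hS y hyK] at hxy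
        exact hinj hxS hyS hxy
  refine ⟨φ', hinj', ?_, ?_⟩
  · intro v hv
    by_cases hvK : v ∈ K
    · rw [hK v hvK]
      exact (Finset.mem_sdiff.1 (hKW v hvK)).1
    · rw [hS v hvK]
      exact hmem v ((Finset.mem_union.1 hv).resolve_right hvK)
  · intro f hf
    rcases Finset.mem_union.1 hf with hf | hf
    · have h1 : f.image φ' = f.image φ := by
        refine Finset.image_congr fun x hx => ?_
        exact hS x (hSK x (hb f hf hx))
      rw [h1]
      exact hred f hf
    · have h1 : f.image φ' = f.image ψ := by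
        refine Finset.image_congr fun x hx => ?_
        rcases Finset.mem_insert.1 (hE' f hf hx) with rfl | hxK
        · rw [hS x huK, hψu]
        · exact hK x hxK
      rw [h1]
      exact hred1 f hf

/-- one gluing step: `T` is the part that is embedded, `K` the set of new vertices, glued at `u` -/
theorem glue_one (Δ : ℕ) :
    ∃ ζ : ℝ, 0 < ζ ∧ ∃ n₀ : ℕ, ∀ {V : Type*} {α : Type} [DecidableEq V] [DecidableEq α]
      (S : Finset V) (E : Finset (Finset V)) (_ : Hyp S E Δ) (T K : Finset V) (_ : T ⊆ S)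
      (_ : K ⊆ S) (_ : Disjoint T K) (u : V) (_ : u ∈ T) (ET EK : Finset (Finset V))
      (_ : ∀ f ∈ ET, f ∈ E ∧ f ⊆ T) (_ : ∀ f ∈ EK, f ∈ E ∧ f ⊆ insert u K)
      (_ : ((insert u K).card : ℝ) ≤ ζ * (S.card : ℝ)) (_ : n₀ ≤ S.card)
      (R : Finset α → Prop) (U : Finset α) (_ : 2 * S.card - 1 ≤ U.card)
      (_ : ¬ BlueFano R U) (_ : HasRed R T ET U),
      HasRed R S E U ∨ HasRed R (T ∪ K) (ET ∪ EK) U := by
  obtain ⟨ζ, hζ, n₀, hglue⟩ := glue_lin Δ
  refine ⟨ζ, hζ, n₀, ?_⟩
  intro V α _ _ S E hyp T K hTS hKS hd u hu ET EK hET hEK hS1 hn R U hU hF hT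
  obtain ⟨φ, hφ⟩ := hT
  have hWc : (U \ T.image φ).card = U.card - T.card := by
    rw [Finset.card_sdiff_of_subset, Finset.card_image_of_injOn hφ.1]
    intro y hy
    obtain ⟨x, hx, rfl⟩ := Finset.mem_image.1 hy
    exact hφ.2.1 x hx
  have haW : φ u ∉ U \ T.image φ := fun h =>
    (Finset.mem_sdiff.1 h).2 (Finset.mem_image_of_mem φ hu)
  have huK : u ∉ K := fun h => Finset.disjoint_left.1 hd hu h
  have hcK : (insert u K).card = K.card + 1 := Finset.card_insert_of_notMem huK
  by_cases hroot : Rooted R (insert u K) EK u (U \ T.image φ) (φ u)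
  · right
    obtain ⟨ψ, hψ, hψu⟩ := hroot
    exact CoreIff_ext (fun f hf => (hET f hf).2) hu hd (fun f hf => (hEK f hf).2) hφ hψ hψu
  · left
    have hsum : T.card + K.card ≤ S.card := by
      rw [← Finset.card_union_of_disjoint hd]
      exact Finset.card_le_card (Finset.union_subset hTS hKS)
    have hsubU : insert (φ u) (U \ T.image φ) ⊆ U := by
      intro y hy
      rcases Finset.mem_insert.1 hy with rfl | hy
      · exact hφ.2.1 u hu
      · exact (Finset.mem_sdiff.1 hy).1
    have hEE : EK ⊆ E := fun f hf => (hEK f hf).1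
    have hyp1 : Hyp (insert u K) EK Δ :=
      ⟨fun f hf => hyp.three f (hEE hf), fun f hf => (hEK f hf).2, fun x =>
        (Finset.card_le_card (Finset.filter_subset_filter _ hEE)).trans (hyp.deg x)⟩
    obtain ⟨ψ, h1, h2, h3⟩ := hglue S E hyp (insert u K) EK hyp1 u
      (Finset.mem_insert_self u K) hS1 R (U \ T.image φ) (φ u) haW
      (fun h => hF (GlueL_blueFano_mono hsubU h)) hn (by rw [hWc, hcK]; omega) hroot
    exact ⟨ψ, h1, fun v hv => (Finset.mem_sdiff.1 (h2 v hv)).1, h3⟩

private theorem CoreIff_edges {V α : Type*} [DecidableEq α]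
    {R : Finset α → Prop} {S : Finset V} {E E' : Finset (Finset V)} {U : Finset α} (h : E' ⊆ E)
    (hA : HasRed R S E U) : HasRed R S E' U := by
  obtain ⟨φ, h1, h2, h3⟩ := hA
  exact ⟨φ, h1, h2, fun f hf => h3 f (h hf)⟩

/-- isolated vertices are added at the end -/
private theorem CoreIff_last {V α : Type*} [DecidableEq V] [DecidableEq α]
    {R : Finset α → Prop} {S T : Finset V} (hTS : T ⊆ S) {E : Finset (Finset V)} {U : Finset α}
    (hT : T.Nonempty) (hE : ∀ f ∈ E, f ⊆ T) (hc : S.card ≤ U.card)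
    (hA : HasRed R T E U) : HasRed R S E U := by
  obtain ⟨φ, h1, h2, h3⟩ := hA
  obtain ⟨t, ht⟩ := hT
  have hWc : (U \ T.image φ).card = U.card - T.card := by
    rw [Finset.card_sdiff_of_subset, Finset.card_image_of_injOn h1]
    intro y hy
    obtain ⟨x, hx, rfl⟩ := Finset.mem_image.1 hy
    exact h2 x hx
  have hWc2 : (S \ T).card = S.card - T.card := Finset.card_sdiff_of_subset hTS
  have hle := Finset.card_le_card hTS
  obtain ⟨ψ, g1, g2⟩ := GlueL_inj (S \ T) (U \ T.image φ) (by omega) (φ t)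
  refine ⟨fun v => if v ∈ T then φ v else ψ v, ?_, ?_, ?_⟩
  · intro x hx y hy hxy
    have hx' : x ∈ S := hx
    have hy' : y ∈ S := hy
    by_cases hxT : x ∈ T
    · by_cases hyT : y ∈ T
      · simp only [if_pos hxT, if_pos hyT] at hxy
        exact h1 hxT hyT hxy
      · exfalso
        simp only [if_pos hxT, if_neg hyT] at hxy
        have h5 := g2 y (Finset.mem_sdiff.2 ⟨hy', hyT⟩)
        rw [← hxy] at h5
        exact (Finset.mem_sdiff.1 h5).2 (Finset.mem_image_of_mem φ hxT)
    · by_cases hyT : y ∈ T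
      · exfalso
        simp only [if_neg hxT, if_pos hyT] at hxy
        have h5 := g2 x (Finset.mem_sdiff.2 ⟨hx', hxT⟩)
        rw [hxy] at h5
        exact (Finset.mem_sdiff.1 h5).2 (Finset.mem_image_of_mem φ hyT)
      · simp only [if_neg hxT, if_neg hyT] at hxy
        exact g1 (Finset.mem_coe.2 (Finset.mem_sdiff.2 ⟨hx', hxT⟩))
          (Finset.mem_coe.2 (Finset.mem_sdiff.2 ⟨hy', hyT⟩)) hxy
  · intro v hv
    by_cases hvT : v ∈ T
    · simp only [if_pos hvT]
      exact h2 v hvT
    · simp only [if_neg hvT]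
      exact (Finset.mem_sdiff.1 (g2 v (Finset.mem_sdiff.2 ⟨hv, hvT⟩))).1
  · intro f hf
    have h5 : f.image (fun v => if v ∈ T then φ v else ψ v) = f.image φ := by
      refine Finset.image_congr fun x hx => ?_
      simp only [if_pos (hE f hf hx)]
    rw [h5]
    exact h3 f hf

/-- the upper bound when small pieces are glued to the core `S₀` one after the other -/
theorem glue_all (Δ : ℕ) :
    ∃ ζ : ℝ, 0 < ζ ∧ ∃ n₀ : ℕ, ∀ {V : Type*} {α : Type} [Fintype V] [DecidableEq V]
      [DecidableEq α] (E : Finset (Finset V)) (_ : Hyp Finset.univ E Δ) (S₀ : Finset V)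
      (_ : S₀.Nonempty) (k : ℕ) (P : Fin k → Finset V)
      (_ : ∀ j, ((P j).card : ℝ) ≤ ζ * (Fintype.card V : ℝ))
      (_ : ∀ j, (P j ∩ (S₀ ∪ (Finset.univ.filter fun i => i < j).biUnion P)).card ≤ 1)
      (_ : ∀ f ∈ E, f ⊆ S₀ ∨ ∃ j, f ⊆ P j) (_ : n₀ ≤ Fintype.card V)
      (R : Finset α → Prop) (U : Finset α) (_ : 2 * Fintype.card V - 1 ≤ U.card)
      (_ : HasRed R S₀ (E.filter fun f => f ⊆ S₀) U),
      HasRed R Finset.univ E U ∨ BlueFano R U := by
  obtain ⟨ζ, hζ, n₁, hone⟩ := glue_one Δ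
  refine ⟨ζ / 2, half_pos hζ, max n₁ (⌈2 / ζ⌉₊ + 1), ?_⟩
  intro V α _ _ _ E hyp S₀ hS₀ k P hP hPi hE hn R U hU hcore
  by_cases hF : BlueFano R U
  · exact Or.inr hF
  left
  have hcardV : (Finset.univ : Finset V).card = Fintype.card V := Finset.card_univ
  have hn1 : n₁ ≤ Fintype.card V := (le_max_left _ _).trans hn
  have hn2 : ⌈2 / ζ⌉₊ + 1 ≤ Fintype.card V := (le_max_right _ _).trans hn
  have hbz : ∀ j, ((P j).card : ℝ) + 1 ≤ ζ * (Fintype.card V : ℝ) := by
    intro j
    have h1 : 2 / ζ ≤ (Fintype.card V : ℝ) := by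
      refine (Nat.le_ceil _).trans ?_
      exact_mod_cast (Nat.le_succ _).trans hn2
    have h2 : 2 ≤ ζ * (Fintype.card V : ℝ) := by
      rw [div_le_iff₀ hζ] at h1
      linarith
    have := hP j
    linarith
  obtain ⟨T, hT⟩ : ∃ T : ℕ → Finset V, ∀ j, T j =
      S₀ ∪ (Finset.univ.filter fun i : Fin k => (i : ℕ) < j).biUnion P := ⟨_, fun _ => rfl⟩
  have hmemT : ∀ j x, x ∈ T j ↔ x ∈ S₀ ∨ ∃ i : Fin k, (i : ℕ) < j ∧ x ∈ P i := by
    intro j x
    rw [hT]
    simp
  have hTne : ∀ j, (T j).Nonempty := by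
    intro j
    obtain ⟨x, hx⟩ := hS₀
    exact ⟨x, (hmemT j x).2 (Or.inl hx)⟩
  have key : ∀ j, j ≤ k → HasRed R Finset.univ E U ∨
      HasRed R (T j) (E.filter fun f => f ⊆ T j) U := by
    intro j
    induction j with
    | zero =>
      intro _
      right
      have h0 : T 0 = S₀ := by
        rw [hT]
        simp
      rw [h0]
      exact hcore
    | succ j ih =>
      intro hj
      rcases ih (by omega) with h | h
      · exact Or.inl h
      obtain ⟨i₀, hi₀⟩ : ∃ i₀ : Fin k, (i₀ : ℕ) = j := ⟨⟨j, by omega⟩, rfl⟩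
      have hTj : T j = S₀ ∪ (Finset.univ.filter fun i => i < i₀).biUnion P := by
        rw [hT]
        congr 2
        ext i
        simp only [Finset.mem_filter, Finset.mem_univ, true_and, Fin.lt_def, hi₀]
      have hone1 : (P i₀ ∩ T j).card ≤ 1 := by
        rw [hTj]
        exact hPi i₀
      obtain ⟨u, huT, hu⟩ : ∃ u ∈ T j, P i₀ ∩ T j ⊆ {u} := by
        rcases Finset.eq_empty_or_nonempty (P i₀ ∩ T j) with h0 | ⟨u, hu⟩
        · obtain ⟨u, hu⟩ := hTne j
          exact ⟨u, hu, by rw [h0]; exact Finset.empty_subset _⟩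
        · refine ⟨u, (Finset.mem_inter.1 hu).2, fun x hx => ?_⟩
          rw [Finset.mem_singleton]
          exact Finset.card_le_one.1 hone1 x hx u hu
      have hPsub : P i₀ ⊆ insert u (P i₀ \ T j) := by
        intro x hx
        by_cases hxT : x ∈ T j
        · have h1 := hu (Finset.mem_inter.2 ⟨hx, hxT⟩)
          rw [Finset.mem_singleton] at h1
          rw [h1]
          exact Finset.mem_insert_self _ _
        · exact Finset.mem_insert_of_mem (Finset.mem_sdiff.2 ⟨hx, hxT⟩)
      have hcK : ((insert u (P i₀ \ T j)).card : ℝ) ≤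
          ζ * ((Finset.univ : Finset V).card : ℝ) := by
        rw [hcardV]
        refine le_trans ?_ (hbz i₀)
        have h1 : (insert u (P i₀ \ T j)).card ≤ (P i₀).card + 1 :=
          (Finset.card_insert_le _ _).trans
            (Nat.succ_le_succ (Finset.card_le_card Finset.sdiff_subset))
        exact_mod_cast h1
      rcases hone Finset.univ E hyp (T j) (P i₀ \ T j) (Finset.subset_univ _)
        (Finset.subset_univ _) Finset.disjoint_sdiff u huT (E.filter fun f => f ⊆ T j)
        (E.filter fun f => f ⊆ insert u (P i₀ \ T j)) (fun f hf => Finset.mem_filter.1 hf)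
        (fun f hf => Finset.mem_filter.1 hf) hcK (by rw [hcardV]; exact hn1) R U
        (by rw [hcardV]; exact hU) hF h with h1 | h1
      · exact Or.inl h1
      right
      have hTs : T j ∪ (P i₀ \ T j) = T (j + 1) := by
        ext x
        rw [Finset.mem_union, Finset.mem_sdiff, hmemT, hmemT]
        constructor
        · rintro ((h2 | ⟨i, h2, h3⟩) | ⟨h2, _⟩)
          · exact Or.inl h2
          · exact Or.inr ⟨i, by omega, h3⟩
          · exact Or.inr ⟨i₀, by omega, h2⟩
        · rintro (h2 | ⟨i, h2, h3⟩)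
          · exact Or.inl (Or.inl h2)
          · by_cases hij : (i : ℕ) < j
            · exact Or.inl (Or.inr ⟨i, hij, h3⟩)
            · have h4 : i = i₀ := Fin.ext (by omega)
              rw [h4] at h3
              by_cases h5 : x ∈ S₀ ∨ ∃ i : Fin k, (i : ℕ) < j ∧ x ∈ P i
              · exact Or.inl h5
              · exact Or.inr ⟨h3, h5⟩
      rw [hTs] at h1
      refine CoreIff_edges ?_ h1
      intro f hf
      obtain ⟨hfE, hfT⟩ := Finset.mem_filter.1 hf
      rw [Finset.mem_union, Finset.mem_filter, Finset.mem_filter]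
      rcases hE f hfE with h2 | ⟨i, h2⟩
      · exact Or.inl ⟨hfE, fun x hx => (hmemT j x).2 (Or.inl (h2 hx))⟩
      rcases lt_trichotomy (i : ℕ) j with h3 | h3 | h3
      · exact Or.inl ⟨hfE, fun x hx => (hmemT j x).2 (Or.inr ⟨i, h3, h2 hx⟩)⟩
      · have h4 : i = i₀ := Fin.ext (by omega)
        rw [h4] at h2
        exact Or.inr ⟨hfE, h2.trans hPsub⟩
      · exfalso
        have h4 : f ⊆ P i ∩ (S₀ ∪ (Finset.univ.filter fun i' => i' < i).biUnion P) := by
          intro x hx
          refine Finset.mem_inter.2 ⟨h2 hx, ?_⟩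
          rcases (hmemT (j + 1) x).1 (hfT hx) with h5 | ⟨i', h5, h6⟩
          · exact Finset.mem_union_left _ h5
          · refine Finset.mem_union_right _ (Finset.mem_biUnion.2 ⟨i', ?_, h6⟩)
            rw [Finset.mem_filter, Fin.lt_def]
            exact ⟨Finset.mem_univ _, by omega⟩
        have h5 := (Finset.card_le_card h4).trans (hPi i)
        rw [hyp.three f hfE] at h5
        omega
  rcases key k le_rfl with h | h
  · exact h
  have hall : ∀ f ∈ E, f ⊆ T k := by
    intro f hf x hx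
    rw [hmemT]
    rcases hE f hf with h2 | ⟨i, h2⟩
    · exact Or.inl (h2 hx)
    · exact Or.inr ⟨i, i.2, h2 hx⟩
  have hpos : 0 < Fintype.card V := by omega
  refine CoreIff_last (Finset.subset_univ (T k)) (hTne k) hall (by rw [hcardV]; omega) ?_
  refine CoreIff_edges (fun f hf => Finset.mem_filter.2 ⟨hf, hall f hf⟩) h

/-- a bounded degree 3-graph on a small set is contained in every large set without blue Fano
plane -/
theorem small_core (Δ : ℕ) :
    ∃ ζ : ℝ, 0 < ζ ∧ ∃ n₀ : ℕ, ∀ {V : Type*} {α : Type} [DecidableEq V] [DecidableEq α]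
      (S : Finset V) (E : Finset (Finset V)) (_ : Hyp S E Δ) (R : Finset α → Prop)
      (U : Finset α) (_ : n₀ ≤ U.card) (_ : (S.card : ℝ) ≤ ζ * (U.card : ℝ)),
      HasRed R S E U ∨ BlueFano R U := by
  obtain ⟨c, hc, n₁, hemb⟩ := embed_fixed Δ
  obtain ⟨γ, hγ, m₀, hsp⟩ := sparse_deg c hc
  refine ⟨γ, hγ, max m₀ (⌈(n₁ : ℝ) / γ⌉₊ + 1), ?_⟩
  intro V α _ _ S E hyp R U hn hS
  by_cases hF : BlueFano R U
  · exact Or.inr hF
  left
  have hn1 : m₀ ≤ U.card := (le_max_left _ _).trans hn
  have hn2 : ⌈(n₁ : ℝ) / γ⌉₊ + 1 ≤ U.card := (le_max_right _ _).trans hn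
  obtain ⟨U', hU', hcard, hd⟩ := hsp R U hn1 hF
  have h1 : (n₁ : ℝ) ≤ (U'.card : ℝ) := by
    refine le_trans ?_ hcard
    have h2 : (n₁ : ℝ) / γ ≤ (U.card : ℝ) := by
      refine (Nat.le_ceil _).trans ?_
      exact_mod_cast (Nat.le_succ _).trans hn2
    rw [div_le_iff₀ hγ] at h2
    linarith
  have h1' : n₁ ≤ U'.card := by exact_mod_cast h1
  have h2 : S.card ≤ U'.card := by exact_mod_cast hS.trans hcard
  obtain ⟨a, ha⟩ : U.Nonempty := by
    rw [← Finset.card_pos]
    omega
  refine GlueL_hasRed_mono hU' ?_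
  refine hemb S E hyp R U' U' (Finset.Subset.refl _) h2 ?_ h1' ∅ (Finset.empty_subset _)
    (fun _ => a) ?_ ?_ ?_ ?_ ?_ ?_ ?_
  · have : (0 : ℝ) ≤ (U'.card : ℝ) := Nat.cast_nonneg _
    linarith
  · simp
  · simp
  · simp only [Finset.card_empty, Nat.cast_zero]
    positivity
  · intro f hf hf0
    exfalso
    have h3 := hyp.three f hf
    rw [Finset.subset_empty.1 hf0] at h3
    simp at h3
  · intro f _ x _ y _ z _ hx
    simp at hx
  · intro f _ x _ hx
    simp at hx
  · intro p hp _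
    by_contra hcon
    push Not at hcon
    have h3 : p ∈ dense R U' c := mem_dense.2 ⟨hp, hcon.le⟩
    rw [hd] at h3
    simp at h3

/-- the value of the Ramsey number -/
private theorem CoreIff_ramsey_eq {V : Type*} [Fintype V] [DecidableEq V]
    (E : Finset (Finset V))
    (n : ℕ) (h1 : Arrows E n) (h2 : ∀ m, m < n → ¬ Arrows E m) : ramsey E = n := by
  unfold ramsey
  apply le_antisymm
  · exact Nat.sInf_le h1
  · by_contra hlt
    push Not at hlt
    have hne : {N | Arrows E N}.Nonempty := ⟨n, h1⟩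
    exact h2 _ hlt (Nat.sInf_mem hne)

/-- Fano-goodness depends on the core only, and it always holds when the core is small -/
theorem good_iff_core (Δ : ℕ) :
    ∃ ζ : ℝ, 0 < ζ ∧ ∃ n₀ : ℕ, ∀ {V : Type*} [Fintype V] [DecidableEq V]
      (E : Finset (Finset V)) (_ : ∀ f ∈ E, f.card = 3) (_ : ∀ x, (edgesAt E x).card ≤ Δ)
      (_ : (incidence E).Connected) (S₀ : Finset V) (_ : S₀.Nonempty) (k : ℕ)
      (P : Fin k → Finset V) (_ : ∀ j, ((P j).card : ℝ) ≤ ζ * (Fintype.card V : ℝ))
      (_ : ∀ j, (P j ∩ (S₀ ∪ (Finset.univ.filter fun i => i < j).biUnion P)).card ≤ 1)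
      (_ : ∀ f ∈ E, f ⊆ S₀ ∨ ∃ j, f ⊆ P j) (_ : n₀ ≤ Fintype.card V),
      (FanoGood E ↔ Arrows (E.filter fun f => f ⊆ S₀) (2 * Fintype.card V - 1)) ∧
        ((S₀.card : ℝ) ≤ ζ * (Fintype.card V : ℝ) → FanoGood E) := by
  obtain ⟨ζ₁, hζ₁, n₁, hall⟩ := glue_all Δ
  obtain ⟨ζ₂, hζ₂, n₂, hsmall⟩ := small_core Δ
  refine ⟨min ζ₁ ζ₂, lt_min hζ₁ hζ₂, max n₁ n₂ + 1, ?_⟩
  intro V _ _ E h3 hdeg hc S₀ hS₀ k P hP hPi hE hn
  have hn1 : n₁ ≤ Fintype.card V := (le_max_left n₁ n₂).trans ((Nat.le_succ _).trans hn)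
  have hn2 : n₂ ≤ Fintype.card V := (le_max_right n₁ n₂).trans ((Nat.le_succ _).trans hn)
  have hpos : 0 < Fintype.card V := by omega
  have hVc : (0 : ℝ) ≤ (Fintype.card V : ℝ) := Nat.cast_nonneg _
  have hyp : Hyp (Finset.univ : Finset V) E Δ := ⟨h3, fun f _ => Finset.subset_univ f, hdeg⟩
  have hP1 : ∀ j, ((P j).card : ℝ) ≤ ζ₁ * (Fintype.card V : ℝ) := fun j =>
    (hP j).trans (mul_le_mul_of_nonneg_right (min_le_left _ _) hVc)
  have hM : 2 * (Fintype.card V - 1) + 1 = 2 * Fintype.card V - 1 := by omega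
  have hup : (∀ R : Finset (Fin (2 * (Fintype.card V - 1) + 1)) → Prop,
      HasRed R S₀ (E.filter fun f => f ⊆ S₀) Finset.univ ∨ BlueFano R Finset.univ) →
      FanoGood E := by
    intro h
    unfold FanoGood
    apply CoreIff_ramsey_eq
    · apply arrows_of
      intro R
      rcases h R with h1 | h1
      · exact hall E hyp S₀ hS₀ k P hP1 hPi hE hn1 R Finset.univ
          (by rw [Finset.card_univ, Fintype.card_fin]; omega) h1
      · exact Or.inr h1
    · intro m hm
      apply not_arrows_of_connected E h3 hc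
      omega
  refine ⟨⟨?_, ?_⟩, ?_⟩
  · intro hg
    have hA : Arrows E (2 * (Fintype.card V - 1) + 1) := by
      have hr : sInf {N | Arrows E N} = 2 * (Fintype.card V - 1) + 1 := hg
      have hne : {N | Arrows E N}.Nonempty := by
        by_contra hcon
        rw [Set.not_nonempty_iff_eq_empty] at hcon
        rw [hcon, Nat.sInf_empty] at hr
        omega
      have := Nat.sInf_mem hne
      rw [hr] at this
      exact this
    rw [hM] at hA
    intro c
    rcases hA c with ⟨φ, hφ⟩ | h1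
    · exact Or.inl ⟨φ, fun f hf => hφ f (Finset.mem_filter.1 hf).1⟩
    · exact Or.inr h1
  · intro hA
    rw [← hM] at hA
    apply hup
    intro R
    classical
    rcases hA (fun f => decide (R f)) with ⟨φ, hφ⟩ | ⟨φ, hφ⟩
    · left
      refine ⟨φ, fun x _ y _ h => φ.injective h, fun v _ => Finset.mem_univ _, fun f hf => ?_⟩
      have h1 := hφ f hf
      simp only [decide_eq_true_eq] at h1
      rw [Finset.map_eq_image] at h1
      exact h1
    · right
      refine ⟨φ, φ.injective, fun i => Finset.mem_univ _, fun f hf => ?_⟩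
      have h1 := hφ f hf
      simp only [decide_eq_false_iff_not] at h1
      rw [Finset.map_eq_image] at h1
      exact h1
  · intro hS
    apply hup
    intro R
    refine hsmall S₀ _ ⟨fun f hf => h3 f (Finset.mem_filter.1 hf).1,
      fun f hf => (Finset.mem_filter.1 hf).2, fun x => ?_⟩ R Finset.univ ?_ ?_
    · exact (Finset.card_le_card (Finset.filter_subset_filter _
        (Finset.filter_subset _ _))).trans (hdeg x)
    · rw [Finset.card_univ, Fintype.card_fin]
      omega
    · rw [Finset.card_univ, Fintype.card_fin]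
      have h1 : (S₀.card : ℝ) ≤ ζ₂ * (Fintype.card V : ℝ) :=
        hS.trans (mul_le_mul_of_nonneg_right (min_le_right _ _) hVc)
      refine h1.trans (mul_le_mul_of_nonneg_left ?_ hζ₂.le)
      have h2 : Fintype.card V ≤ 2 * (Fintype.card V - 1) + 1 := by omega
      exact_mod_cast h2

end Pool.MP7783b9
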