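import Pool.Agent.H.MP_7783b9_co.B.Basic

/-!
# Blue densities of boxes
-/

set_option autoImplicit false

open Finset

namespace Pool.MP7783b9

section

variable {α : Type*} [DecidableEq α]

open Classical in
/-- the number of blue triples in the box `X × Y × Z` -/
noncomputable def e3 (R : Finset α → Prop) (X Y Z : Finset α) : ℕ :=
  ((X ×ˢ Y ×ˢ Z).filter fun p => Blue3 R p.1 p.2.1 p.2.2).card

/-- all large sub-boxes have blue density at most `θ` -/
def Sparse (R : Finset α → Prop) (δ θ : ℝ) (X Y Z : Finset α) : Prop :=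
  ∀ A ⊆ X, ∀ B ⊆ Y, ∀ C ⊆ Z, δ * (X.card : ℝ) ≤ (A.card : ℝ) → δ * (Y.card : ℝ) ≤ (B.card : ℝ) →
    δ * (Z.card : ℝ) ≤ (C.card : ℝ) →
    (e3 R A B C : ℝ) ≤ θ * ((A.card : ℝ) * (B.card : ℝ) * (C.card : ℝ))

/-- all large sub-boxes have blue density at least `θ` -/
def Dens (R : Finset α → Prop) (δ θ : ℝ) (X Y Z : Finset α) : Prop :=
  ∀ A ⊆ X, ∀ B ⊆ Y, ∀ C ⊆ Z, δ * (X.card : ℝ) ≤ (A.card : ℝ) → δ * (Y.card : ℝ) ≤ (B.card : ℝ) →
    δ * (Z.card : ℝ) ≤ (C.card : ℝ) →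
    θ * ((A.card : ℝ) * (B.card : ℝ) * (C.card : ℝ)) ≤ (e3 R A B C : ℝ)

theorem e3_rot (R : Finset α → Prop) (X Y Z : Finset α) : e3 R X Y Z = e3 R Y Z X := by
  classical
  unfold e3
  refine Finset.card_bij (fun p _ => (p.2.1, p.2.2, p.1)) ?_ ?_ ?_
  · rintro ⟨x, y, z⟩ hp
    rw [Finset.mem_filter, Finset.mem_product, Finset.mem_product] at hp ⊢
    exact ⟨⟨hp.1.2.1, hp.1.2.2, hp.1.1⟩, hp.2.rot⟩
  · rintro ⟨x, y, z⟩ _ ⟨x', y', z'⟩ _ h
    simp only [Prod.mk.injEq] at h ⊢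
    exact ⟨h.2.2, h.1, h.2.1⟩
  · rintro ⟨y, z, x⟩ hp
    rw [Finset.mem_filter, Finset.mem_product, Finset.mem_product] at hp
    refine ⟨(x, y, z), ?_, rfl⟩
    rw [Finset.mem_filter, Finset.mem_product, Finset.mem_product]
    exact ⟨⟨hp.1.2.2, hp.1.1, hp.1.2.1⟩, hp.2.rot.rot⟩

theorem e3_swap (R : Finset α → Prop) (X Y Z : Finset α) : e3 R X Y Z = e3 R X Z Y := by
  classical
  unfold e3
  refine Finset.card_bij (fun p _ => (p.1, p.2.2, p.2.1)) ?_ ?_ ?_
  · rintro ⟨x, y, z⟩ hp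
    rw [Finset.mem_filter, Finset.mem_product, Finset.mem_product] at hp ⊢
    exact ⟨⟨hp.1.1, hp.1.2.2, hp.1.2.1⟩, hp.2.swap⟩
  · rintro ⟨x, y, z⟩ _ ⟨x', y', z'⟩ _ h
    simp only [Prod.mk.injEq] at h ⊢
    exact ⟨h.1, h.2.2, h.2.1⟩
  · rintro ⟨x, z, y⟩ hp
    rw [Finset.mem_filter, Finset.mem_product, Finset.mem_product] at hp
    refine ⟨(x, y, z), ?_, rfl⟩
    rw [Finset.mem_filter, Finset.mem_product, Finset.mem_product]
    exact ⟨⟨hp.1.1, hp.1.2.2, hp.1.2.1⟩, hp.2.swap⟩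

theorem e3_le (R : Finset α → Prop) (X Y Z : Finset α) :
    e3 R X Y Z ≤ X.card * Y.card * Z.card := by
  classical
  unfold e3
  refine (Finset.card_filter_le _ _).trans (le_of_eq ?_)
  rw [Finset.card_product, Finset.card_product, mul_assoc]

/-- the number of blue pairs of `Y × Z` with `x` -/
private noncomputable def Box_g (R : Finset α → Prop) (Y Z : Finset α) (x : α) : ℕ := by
  classical exact ((Y ×ˢ Z).filter fun q => Blue3 R x q.1 q.2).card

private theorem Box_sum (R : Finset α → Prop) (X Y Z : Finset α) :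
    e3 R X Y Z = ∑ x ∈ X, Box_g R Y Z x := by
  classical
  unfold e3 Box_g
  rw [Finset.card_filter, Finset.sum_product]
  refine Finset.sum_congr rfl fun x _ => ?_
  rw [Finset.card_filter]

/-- additivity in the first side: `X = A ∪ (X \ A)` -/
theorem e3_split (R : Finset α → Prop) (X Y Z A : Finset α) (hA : A ⊆ X) :
    e3 R X Y Z = e3 R A Y Z + e3 R (X \ A) Y Z := by
  rw [Box_sum, Box_sum, Box_sum, add_comm]
  exact (Finset.sum_sdiff hA).symm

/-- some `v`-subset has at least the average -/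
theorem avg_subset (X : Finset α) (g : α → ℕ) (v : ℕ) (hv : v ≤ X.card) :
    ∃ X' ⊆ X, X'.card = v ∧ (∑ x ∈ X, g x) * v ≤ (∑ x ∈ X', g x) * X.card := by
  induction hn : X.card generalizing X with
  | zero =>
    rw [hn] at hv
    have h0 : v = 0 := Nat.le_zero.1 hv
    refine ⟨∅, Finset.empty_subset X, by rw [h0]; rfl, ?_⟩
    rw [h0, Nat.mul_zero]
    exact Nat.zero_le _
  | succ m ih =>
    rcases Nat.eq_or_lt_of_le hv with h | h
    · exact ⟨X, Finset.Subset.refl X, h.symm, by rw [h, hn]⟩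
    · rcases Nat.eq_zero_or_pos v with h0 | h0
      · refine ⟨∅, Finset.empty_subset X, by rw [h0]; rfl, ?_⟩
        rw [h0, Nat.mul_zero]
        exact Nat.zero_le _
      have hne : X.Nonempty := Finset.card_pos.1 (by omega)
      obtain ⟨x₀, hx₀, hmin⟩ := Finset.exists_min_image X g hne
      have hc : (X.erase x₀).card = m := by
        rw [Finset.card_erase_of_mem hx₀, hn]
        rfl
      obtain ⟨X', hX', hcard, hle⟩ := ih (X.erase x₀) (by rw [hc]; omega) hc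
      refine ⟨X', hX'.trans (Finset.erase_subset _ _), hcard, ?_⟩
      have hsum : ∑ x ∈ X, g x = g x₀ + ∑ x ∈ X.erase x₀, g x :=
        (Finset.add_sum_erase X g hx₀).symm
      have h1 : g x₀ * m ≤ ∑ x ∈ X.erase x₀, g x := by
        rw [← hc, mul_comm, ← smul_eq_mul, ← Finset.sum_const]
        exact Finset.sum_le_sum fun x hx => hmin x (Finset.mem_of_mem_erase hx)
      have hm : 0 < m := by omega
      rw [hsum]
      generalize ∑ x ∈ X.erase x₀, g x = s1 at hle h1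
      generalize ∑ x ∈ X', g x = s2 at hle
      refine Nat.le_of_mul_le_mul_right ?_ hm
      calc (g x₀ + s1) * v * m = g x₀ * m * v + s1 * v * m := by ring
        _ ≤ s1 * v + s1 * v * m := Nat.add_le_add_right (Nat.mul_le_mul_right v h1) _
        _ = s1 * v * (m + 1) := by ring
        _ ≤ s2 * m * (m + 1) := Nat.mul_le_mul_right _ hle
        _ = s2 * (m + 1) * m := by ring

private theorem Box_avg1 (R : Finset α → Prop) (X Y Z : Finset α) (v : ℕ) (hX : v ≤ X.card) :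
    ∃ X' ⊆ X, X'.card = v ∧ e3 R X Y Z * v ≤ e3 R X' Y Z * X.card := by
  obtain ⟨X', h1, h2, h3⟩ := avg_subset X (Box_g R Y Z) v hX
  exact ⟨X', h1, h2, by rw [Box_sum R X Y Z, Box_sum R X' Y Z]; exact h3⟩

/-- some sub-box with sides `v` has at least the density of the whole box -/
theorem box_avg (R : Finset α → Prop) (X Y Z : Finset α) (v : ℕ) (hX : v ≤ X.card)
    (hY : v ≤ Y.card) (hZ : v ≤ Z.card) :
    ∃ X' ⊆ X, ∃ Y' ⊆ Y, ∃ Z' ⊆ Z, X'.card = v ∧ Y'.card = v ∧ Z'.card = v ∧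
      e3 R X Y Z * v ^ 3 ≤ e3 R X' Y' Z' * (X.card * Y.card * Z.card) := by
  obtain ⟨X', hX', hXc, h1⟩ := Box_avg1 R X Y Z v hX
  obtain ⟨Y', hY', hYc, h2⟩ := Box_avg1 R Y Z X' v hY
  obtain ⟨Z', hZ', hZc, h3⟩ := Box_avg1 R Z X' Y' v hZ
  refine ⟨X', hX', Y', hY', Z', hZ', hXc, hYc, hZc, ?_⟩
  rw [← e3_rot R X' Y Z] at h2
  rw [← e3_rot R Y' Z X', e3_rot R Z' X' Y'] at h3
  generalize e3 R X Y Z = a at *
  generalize e3 R X' Y Z = b at *
  generalize e3 R Y' Z X' = c at *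
  generalize e3 R X' Y' Z' = d at *
  calc a * v ^ 3 = a * v * (v * v) := by ring
    _ ≤ b * X.card * (v * v) := Nat.mul_le_mul_right _ h1
    _ = b * v * (X.card * v) := by ring
    _ ≤ c * Y.card * (X.card * v) := Nat.mul_le_mul_right _ h2
    _ = c * v * (X.card * Y.card) := by ring
    _ ≤ d * Z.card * (X.card * Y.card) := Nat.mul_le_mul_right _ h3
    _ = d * (X.card * Y.card * Z.card) := by ring

end

end Pool.MP7783b9
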