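import Pool.Agent.H.MP_7783b9_co.R.GlueL
import Pool.Agent.H.MP_7783b9_co.B.BagsA
import Pool.Agent.H.MP_7783b9_co.Final

/-!
# Hypergraphs of bounded degree with small blocks are Fano-good
-/

set_option autoImplicit false

open Finset

namespace Pool.MP7783b9

private theorem BuiltL_sub {V : Type*} [DecidableEq V] {b : ℕ} {S : Finset V}
    {E : Finset (Finset V)} (h : Built b S E) : ∀ f ∈ E, f ⊆ S := by
  induction h with
  | base v => simp
  | glue S E u K E' _ hu _ _ hE' ih =>
    intro f hf
    rcases Finset.mem_union.1 hf with hf | hf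
    · exact (ih f hf).trans Finset.subset_union_left
    · refine (hE' f hf).trans ?_
      intro x hx
      rcases Finset.mem_insert.1 hx with rfl | hx
      · exact Finset.mem_union_left _ hu
      · exact Finset.mem_union_right _ hx

private theorem BuiltL_fano_mono {α : Type*} [DecidableEq α] {R : Finset α → Prop}
    {W U : Finset α} (h : W ⊆ U) (hF : BlueFano R W) : BlueFano R U := by
  obtain ⟨ψ, h1, h2, h3⟩ := hF
  exact ⟨ψ, h1, fun i => h (h2 i), h3⟩

/-- extension of a copy by a rooted copy of the next piece -/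
private theorem BuiltL_ext {V α : Type*} [DecidableEq V] [DecidableEq α] {b : ℕ} {S : Finset V}
    {E : Finset (Finset V)} (hb : Built b S E) {u : V} {K : Finset V} {E' : Finset (Finset V)}
    (hu : u ∈ S) (hd : Disjoint S K) (hE' : ∀ f ∈ E', f ⊆ insert u K)
    {R : Finset α → Prop} {U : Finset α} {φ : V → α}
    (hφ : IsCopy R S E U φ) {ψ : V → α}
    (hψ : IsCopy R (insert u K) E' (insert (φ u) (U \ S.image φ)) ψ) (hψu : ψ u = φ u) :
    HasRed R (S ∪ K) (E ∪ E') U := by
  obtain ⟨hinj, hmem, hred⟩ := hφ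
  obtain ⟨hinj1, hmem1, hred1⟩ := hψ
  let φ' : V → α := fun v => if v ∈ K then ψ v else φ v
  have huK : u ∉ K := fun h => Finset.disjoint_left.1 hd hu h
  have hK : ∀ v ∈ K, φ' v = ψ v := fun v hv => by simp only [φ', if_pos hv]
  have hS : ∀ v ∉ K, φ' v = φ v := fun v hv => by simp only [φ', if_neg hv]
  have hSK : ∀ v ∈ S, v ∉ K := fun v hv hv' => Finset.disjoint_left.1 hd hv hv'
  have hKW : ∀ v ∈ K, ψ v ∈ U \ S.image φ := by
    intro v hv
    have h1 := hmem1 v (Finset.mem_insert_of_mem hv)
    rcases Finset.mem_insert.1 h1 with h2 | h2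
    · exfalso
      rw [← hψu] at h2
      have h3 := hinj1 (Finset.mem_coe.2 (Finset.mem_insert_of_mem hv))
        (Finset.mem_coe.2 (Finset.mem_insert_self u K)) h2
      rw [h3] at hv
      exact huK hv
    · exact h2
  have hinj' : Set.InjOn φ' (S ∪ K : Finset V) := by
    intro x hx y hy hxy
    have hx' := Finset.mem_union.1 (Finset.mem_coe.1 hx)
    have hy' := Finset.mem_union.1 (Finset.mem_coe.1 hy)
    by_cases hxK : x ∈ K
    · by_cases hyK : y ∈ K
      · rw [hK x hxK, hK y hyK] at hxy
        exact hinj1 (Finset.mem_coe.2 (Finset.mem_insert_of_mem hxK))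
          (Finset.mem_coe.2 (Finset.mem_insert_of_mem hyK)) hxy
      · exfalso
        have hyS : y ∈ S := hy'.resolve_right hyK
        have h1 := (Finset.mem_sdiff.1 (hKW x hxK)).2
        rw [hK x hxK, hS y hyK] at hxy
        rw [hxy] at h1
        exact h1 (Finset.mem_image_of_mem φ hyS)
    · have hxS : x ∈ S := hx'.resolve_right hxK
      by_cases hyK : y ∈ K
      · exfalso
        have h1 := (Finset.mem_sdiff.1 (hKW y hyK)).2
        rw [hS x hxK, hK y hyK] at hxy
        rw [← hxy] at h1
        exact h1 (Finset.mem_image_of_mem φ hxS)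
      · have hyS : y ∈ S := hy'.resolve_right hyK
        rw [hS x hxK, hS y hyK] at hxy
        exact hinj hxS hyS hxy
  refine ⟨φ', hinj', ?_, ?_⟩
  · intro v hv
    by_cases hvK : v ∈ K
    · rw [hK v hvK]
      exact (Finset.mem_sdiff.1 (hKW v hvK)).1
    · rw [hS v hvK]
      exact hmem v ((Finset.mem_union.1 hv).resolve_right hvK)
  · intro f hf
    rcases Finset.mem_union.1 hf with hf | hf
    · have h1 : f.image φ' = f.image φ := by
        refine Finset.image_congr fun x hx => ?_
        exact hS x (hSK x (BuiltL_sub hb f hf hx))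
      rw [h1]
      exact hred f hf
    · have h1 : f.image φ' = f.image ψ := by
        refine Finset.image_congr fun x hx => ?_
        rcases Finset.mem_insert.1 (hE' f hf hx) with rfl | hxK
        · rw [hS x huK, hψu]
        · exact hK x hxK
      rw [h1]
      exact hred1 f hf

theorem built_upper_lin (Δ : ℕ) :
    ∃ ζ : ℝ, 0 < ζ ∧ ∃ n₀ : ℕ, ∀ {V : Type*} {α : Type} [DecidableEq V] [DecidableEq α]
      (S : Finset V) (E : Finset (Finset V)) (_ : Hyp S E Δ) (b : ℕ)
      (_ : (b : ℝ) ≤ ζ * (S.card : ℝ)) (_ : Built b S E)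
      (_ : n₀ ≤ S.card) (R : Finset α → Prop) (U : Finset α) (_ : 2 * S.card - 1 ≤ U.card),
      HasRed R S E U ∨ BlueFano R U := by
  obtain ⟨ζ, hζ, n₁, hglue⟩ := glue_lin Δ
  refine ⟨ζ / 2, half_pos hζ, max n₁ (⌈2 / ζ⌉₊ + 1), ?_⟩
  intro V α _ _ S E hyp b hbS hb hn R U hU
  by_cases hF : BlueFano R U
  · exact Or.inr hF
  left
  have hn1 : n₁ ≤ S.card := (le_max_left _ _).trans hn
  have hn2 : ⌈2 / ζ⌉₊ + 1 ≤ S.card := (le_max_right _ _).trans hn
  have hbz : (b : ℝ) + 1 ≤ ζ * (S.card : ℝ) := by
    have h1 : 2 / ζ ≤ (S.card : ℝ) := by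
      refine (Nat.le_ceil _).trans ?_
      exact_mod_cast (Nat.le_succ _).trans hn2
    have h2 : 2 ≤ ζ * (S.card : ℝ) := by
      rw [div_le_iff₀ hζ] at h1
      linarith
    linarith
  have key : ∀ S' E', Built b S' E' → S' ⊆ S → E' ⊆ E →
      HasRed R S E U ∨ HasRed R S' E' U := by
    intro S' E' h
    induction h with
    | base v =>
      intro _ _
      right
      have hne : U.Nonempty := by
        rw [← Finset.card_pos]; omega
      obtain ⟨a, ha⟩ := hne
      exact ⟨fun _ => a, by simp [Set.InjOn], fun _ _ => ha, by simp⟩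
    | glue S' E' u K E'' hb' hu hd hK hE'' ih =>
      intro hS hE
      rcases ih (Finset.union_subset_left hS) (Finset.union_subset_left hE) with h1 | ⟨φ, hφ⟩
      · exact Or.inl h1
      have hWc : (U \ S'.image φ).card = U.card - S'.card := by
        rw [Finset.card_sdiff_of_subset, Finset.card_image_of_injOn hφ.1]
        intro y hy
        obtain ⟨x, hx, rfl⟩ := Finset.mem_image.1 hy
        exact hφ.2.1 x hx
      have haW : φ u ∉ U \ S'.image φ := fun h =>
        (Finset.mem_sdiff.1 h).2 (Finset.mem_image_of_mem φ hu)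
      have huK : u ∉ K := fun h => Finset.disjoint_left.1 hd hu h
      have hcK : (insert u K).card = K.card + 1 := Finset.card_insert_of_notMem huK
      by_cases hroot : Rooted R (insert u K) E'' u (U \ S'.image φ) (φ u)
      · right
        obtain ⟨ψ, hψ, hψu⟩ := hroot
        exact BuiltL_ext hb' hu hd hE'' hφ hψ hψu
      · left
        have hsum : S'.card + K.card ≤ S.card := by
          rw [← Finset.card_union_of_disjoint hd]
          exact Finset.card_le_card hS
        have hsubU : insert (φ u) (U \ S'.image φ) ⊆ U := by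
          intro y hy
          rcases Finset.mem_insert.1 hy with rfl | hy
          · exact hφ.2.1 u hu
          · exact (Finset.mem_sdiff.1 hy).1
        have hEE : E'' ⊆ E := Finset.union_subset_right hE
        have hyp1 : Hyp (insert u K) E'' Δ :=
          ⟨fun f hf => hyp.three f (hEE hf), hE'', fun x =>
            (Finset.card_le_card (Finset.filter_subset_filter _ hEE)).trans (hyp.deg x)⟩
        have hS1 : ((insert u K).card : ℝ) ≤ ζ * (S.card : ℝ) := by
          rw [hcK]
          have : (K.card : ℝ) ≤ b := by exact_mod_cast hK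
          push_cast
          linarith
        obtain ⟨ψ, h1, h2, h3⟩ := hglue S E hyp (insert u K) E'' hyp1 u
          (Finset.mem_insert_self u K) hS1 R (U \ S'.image φ) (φ u) haW
          (fun h => hF (BuiltL_fano_mono hsubU h)) hn1 (by rw [hWc, hcK]; omega) hroot
        exact ⟨ψ, h1, fun v hv => (Finset.mem_sdiff.1 (h2 v hv)).1, h3⟩
  rcases key S E hb (Finset.Subset.refl _) (Finset.Subset.refl _) with h | h <;> exact h

/-- the value of the Ramsey number -/
private theorem BuiltL_ramsey_eq {V : Type*} [Fintype V] [DecidableEq V] (E : Finset (Finset V))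
    (n : ℕ) (h1 : Arrows E n) (h2 : ∀ m, m < n → ¬ Arrows E m) : ramsey E = n := by
  unfold ramsey
  apply le_antisymm
  · exact Nat.sInf_le h1
  · by_contra hlt
    push Not at hlt
    have hne : {N | Arrows E N}.Nonempty := ⟨n, h1⟩
    exact h2 _ hlt (Nat.sInf_mem hne)

theorem small_blocks_lin (Δ : ℕ) :
    ∃ ζ : ℝ, 0 < ζ ∧ ∃ n₀ : ℕ, ∀ {V : Type*} [Fintype V] [DecidableEq V]
      (E : Finset (Finset V))
      (_ : ∀ f ∈ E, f.card = 3) (_ : ∀ x, (edgesAt E x).card ≤ Δ) (_ : (incidence E).Connected)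
      {ι : Type*} [Fintype ι] (B : ι → Finset V)
      (_ : ∀ i, ((B i).card : ℝ) ≤ ζ * (Fintype.card V : ℝ))
      (_ : ∀ f ∈ E, ∃ i, f ⊆ B i) (_ : (bagGraph B).IsAcyclic) (_ : n₀ ≤ Fintype.card V),
      FanoGood E := by
  obtain ⟨ζ, hζ, n₀, hn₀⟩ := built_upper_lin Δ
  refine ⟨ζ, hζ, n₀ + 1, ?_⟩
  intro V _ _ E h3 hdeg hc ι _ B hB hE hac hn
  have hcard : (Finset.univ : Finset V).card = Fintype.card V := Finset.card_univ
  have hnn : 0 ≤ ζ * (Fintype.card V : ℝ) := mul_nonneg hζ.le (Nat.cast_nonneg _)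
  have hbuilt : Built ⌊ζ * (Fintype.card V : ℝ)⌋₊ (Finset.univ : Finset V) E :=
    built_of_bags E h3 hc _ B (fun i => Nat.le_floor (hB i)) hE hac
  have hyp : Hyp (Finset.univ : Finset V) E Δ := ⟨h3, fun f _ => Finset.subset_univ f, hdeg⟩
  unfold FanoGood
  apply BuiltL_ramsey_eq
  · apply arrows_of
    intro R
    apply hn₀ Finset.univ E hyp _ _ hbuilt
    · rw [hcard]; omega
    · rw [hcard, Finset.card_univ, Fintype.card_fin]; omega
    · rw [hcard]
      exact Nat.floor_le hnn
  · intro m hm
    apply not_arrows_of_connected E h3 hc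
    omega

end Pool.MP7783b9
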