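import Pool.Agent.H.MP_7783b9_co.B.Fixed
import Pool.Agent.H.MP_7783b9_co.B.Far

/-!
# Embedding a rooted piece into a sparse set
-/

set_option autoImplicit false

open Finset

namespace Pool.MP7783b9

/-- the piece `(S, E)` has a red copy in which `u` goes to `a` and all other vertices go to `W` -/
def Rooted {V α : Type*} [DecidableEq α] (R : Finset α → Prop) (S : Finset V)
    (E : Finset (Finset V)) (u : V) (W : Finset α) (a : α) : Prop :=
  ∃ φ : V → α, IsCopy R S E (insert a W) φ ∧ φ u = a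

/-- If there is no rooted copy, every nice set of size `2 Δ` contains a pair blue with `a`. -/
theorem root_pair (Δ : ℕ) :
    ∃ c : ℝ, 0 < c ∧ ∃ n₀ : ℕ, ∀ {V : Type*} {α : Type} [DecidableEq V] [DecidableEq α]
      (S : Finset V) (E : Finset (Finset V)) (_ : Hyp S E Δ) (u : V) (_ : u ∈ S)
      (R : Finset α → Prop) (W : Finset α) (a : α) (_ : a ∉ W) (_ : n₀ ≤ W.card)
      (_ : S.card ≤ W.card) (_ : ∀ x ∈ W, ((bpairs R W x).card : ℝ) ≤ c * (W.card : ℝ) ^ 2)
      (_ : ¬ Rooted R S E u W a) (ε η : ℝ) (_ : ε ≤ c) (_ : η ≤ c) (Y : Finset α)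
      (_ : Nice R W ε η Y) (_ : Y.card = 2 * Δ),
      HasPair R a Y := by
  classical
  obtain ⟨c, hc, n₀, hemb⟩ := embed_ext Δ
  obtain ⟨m, hm⟩ := exists_nat_ge (2 * (Δ : ℝ) / c)
  refine ⟨c, hc, max n₀ m, ?_⟩
  intro V α _ _ S E hH u hu R W a ha hn hSW hW hroot ε η hε hη Y hY hYc
  by_contra hno
  apply hroot
  have hred : ∀ p ∈ Y, ∀ q ∈ Y, p ≠ q → R {a, p, q} := by
    intro p hp q hq hpq
    by_contra hR
    exact hno ⟨p, hp, q, hq, hpq, hR⟩
  have hWn : n₀ ≤ W.card := le_trans (le_max_left _ _) hn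
  have hWm : (m : ℝ) ≤ (W.card : ℝ) := by
    exact_mod_cast le_trans (le_max_right _ _) hn
  have hΔW : 2 * (Δ : ℝ) ≤ c * (W.card : ℝ) := by
    have h1 : 2 * (Δ : ℝ) / c ≤ (W.card : ℝ) := le_trans hm hWm
    rw [div_le_iff₀ hc] at h1
    linarith only [h1]
  have hX : ∀ y, y ∈ nbo E u ↔ y ≠ u ∧ ∃ f ∈ E, u ∈ f ∧ y ∈ f := by
    intro y
    unfold nbo
    rw [Finset.mem_erase, Far_mem_nbc]
    constructor
    · rintro ⟨h1, h2 | h2⟩
      · exact absurd h2 h1
      · exact ⟨h1, h2⟩
    · rintro ⟨h1, h2⟩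
      exact ⟨h1, Or.inr h2⟩
  have hXc : (nbo E u).card ≤ 2 * Δ := by
    unfold nbo
    have hmem : u ∈ nbc E u := by rw [Far_mem_nbc]; exact Or.inl rfl
    rw [Finset.card_erase_of_mem hmem]
    have := nbc_card hH u
    omega
  have hemb' : Nonempty ((nbo E u : Finset V) ↪ (Y : Finset α)) := by
    apply Function.Embedding.nonempty_of_card_le
    rw [Fintype.card_coe, Fintype.card_coe, hYc]
    exact hXc
  obtain ⟨e⟩ := hemb'
  set φ : V → α := fun y => if h : y ∈ nbo E u then (e ⟨y, h⟩ : α) else a with hφ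
  have hφX : ∀ y (h : y ∈ nbo E u), φ y = (e ⟨y, h⟩ : α) := by
    intro y h
    simp only [hφ, dif_pos h]
  have hφY : ∀ y ∈ nbo E u, φ y ∈ Y := by
    intro y h
    rw [hφX y h]
    exact (e ⟨y, h⟩).2
  have hinj : Set.InjOn φ (nbo E u : Finset V) := by
    intro x hx y hy hxy
    rw [Finset.mem_coe] at hx hy
    rw [hφX x hx, hφX y hy] at hxy
    have := e.injective (Subtype.ext hxy)
    simpa using this
  have hH' : Hyp (S.erase u) (E.filter fun f => u ∉ f) Δ := by
    refine ⟨?_, ?_, ?_⟩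
    · intro f hf
      exact hH.three f (Finset.mem_filter.1 hf).1
    · intro f hf x hx
      rw [Finset.mem_filter] at hf
      refine Finset.mem_erase.2 ⟨?_, hH.sub f hf.1 hx⟩
      rintro rfl
      exact hf.2 hx
    · intro x
      refine le_trans (Finset.card_le_card ?_) (hH.deg x)
      intro f hf
      unfold edgesAt at hf ⊢
      rw [Finset.mem_filter] at hf ⊢
      exact ⟨(Finset.mem_filter.1 hf.1).1, hf.2⟩
  have hW0 : (0 : ℝ) ≤ (W.card : ℝ) := Nat.cast_nonneg _
  have hXcr : ((nbo E u).card : ℝ) ≤ 2 * (Δ : ℝ) := by exact_mod_cast hXc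
  have hres := hemb (S.erase u) (E.filter fun f => u ∉ f) hH' R W W subset_rfl
    (le_trans (Finset.card_le_card (Finset.erase_subset _ _)) hSW)
    (by linarith only [hW0]) hWn (nbo E u)
    (by
      intro y hy
      obtain ⟨h1, f, hf, -, hyf⟩ := (hX y).1 hy
      exact Finset.mem_erase.2 ⟨h1, hH.sub f hf hyf⟩)
    φ hinj (fun x hx => hY.sub (hφY x hx))
    (by linarith only [hXcr, hΔW])
    (by
      intro f hf hfX
      apply hY.red
      · intro z hz
        obtain ⟨y, hy, rfl⟩ := Finset.mem_image.1 hz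
        exact hφY y (hfX hy)
      · rw [Finset.card_image_of_injOn (hinj.mono (Finset.coe_subset.2 hfX))]
        exact hH'.three f hf)
    (by
      intro f hf x hx y hy z hz hxX hyX hxy hzX
      have hne : φ x ≠ φ y := fun h => hxy (hinj (Finset.mem_coe.2 hxX) (Finset.mem_coe.2 hyX) h)
      have h1 := hY.cod (φ x) (hφY x hxX) (φ y) (hφY y hyX) hne
      have h2 : η * (W.card : ℝ) ≤ c * (W.card : ℝ) := mul_le_mul_of_nonneg_right hη hW0
      linarith only [h1, h2])
    (by
      intro f hf x hx hxX _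
      have h1 := hY.deg (φ x) (hφY x hxX)
      have h2 : ε * (W.card : ℝ) ^ 2 ≤ c * (W.card : ℝ) ^ 2 :=
        mul_le_mul_of_nonneg_right hε (sq_nonneg _)
      linarith only [h1, h2])
    (fun p hp _ => hW p hp)
  obtain ⟨ψ, ⟨hψ1, hψ2, hψ3⟩, hψX⟩ := hres
  refine ⟨fun v => if v = u then a else ψ v, ⟨?_, ?_, ?_⟩, by simp⟩
  · intro x hx y hy hxy
    rw [Finset.mem_coe] at hx hy
    by_cases h1 : x = u
    · by_cases h2 : y = u
      · rw [h1, h2]
      · simp only [h1, h2, if_true, if_false] at hxy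
        exact absurd (hxy ▸ hψ2 y (Finset.mem_erase.2 ⟨h2, hy⟩)) ha
    · by_cases h2 : y = u
      · simp only [h1, h2, if_true, if_false] at hxy
        exact absurd (hxy ▸ hψ2 x (Finset.mem_erase.2 ⟨h1, hx⟩)) ha
      · simp only [h1, h2, if_false] at hxy
        exact hψ1 (Finset.mem_coe.2 (Finset.mem_erase.2 ⟨h1, hx⟩))
          (Finset.mem_coe.2 (Finset.mem_erase.2 ⟨h2, hy⟩)) hxy
  · intro v hv
    by_cases h1 : v = u
    · simp only [h1, if_true]
      exact Finset.mem_insert_self _ _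
    · simp only [h1, if_false]
      exact Finset.mem_insert_of_mem (hψ2 v (Finset.mem_erase.2 ⟨h1, hv⟩))
  · intro f hf
    by_cases huf : u ∈ f
    · have hc2 : (f.erase u).card = 2 := by
        rw [Finset.card_erase_of_mem huf, hH.three f hf]
      obtain ⟨y, z, hyz, hfe⟩ := Finset.card_eq_two.1 hc2
      have hyf : y ∈ f.erase u := by rw [hfe]; simp
      have hzf : z ∈ f.erase u := by rw [hfe]; simp
      rw [Finset.mem_erase] at hyf hzf
      have hyX : y ∈ nbo E u := (hX y).2 ⟨hyf.1, f, hf, huf, hyf.2⟩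
      have hzX : z ∈ nbo E u := (hX z).2 ⟨hzf.1, f, hf, huf, hzf.2⟩
      have hff : f = insert u ({y, z} : Finset V) := by
        rw [← hfe, Finset.insert_erase huf]
      have himg : f.image (fun v => if v = u then a else ψ v) = {a, φ y, φ z} := by
        rw [hff, Finset.image_insert, Finset.image_insert, Finset.image_singleton]
        simp only [hyf.1, hzf.1, if_true, if_false]
        rw [hψX y hyX, hψX z hzX]
      rw [himg]
      refine hred _ (hφY y hyX) _ (hφY z hzX) ?_
      intro h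
      exact hyz (hinj (Finset.mem_coe.2 hyX) (Finset.mem_coe.2 hzX) h)
    · have himg : f.image (fun v => if v = u then a else ψ v) = f.image ψ := by
        apply Finset.image_congr
        intro v hv
        have : v ≠ u := by
          rintro rfl
          exact huf (Finset.mem_coe.1 hv)
        simp only [this, if_false]
      rw [himg]
      exact hψ3 f (Finset.mem_filter.2 ⟨hf, huf⟩)

end Pool.MP7783b9
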