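import Pool.Agent.H.MP_7783b9_co.R.SparseSet
import Pool.Agent.H.MP_7783b9_co.R.Root
import Pool.Agent.H.MP_7783b9_co.B.NiceX

/-!
# Large cliques in the blue link of `a` inside every set of linear size
-/

set_option autoImplicit false

open Finset

namespace Pool.MP7783b9

theorem clique_lin (Δ : ℕ) (hΔ : 0 < Δ) (M : ℕ) (τ : ℝ) (hτ : 0 < τ) :
    ∃ κ : ℝ, 0 < κ ∧ ∃ n₀ : ℕ, ∀ {V : Type*} {α : Type} [DecidableEq V] [DecidableEq α]
      (S : Finset V) (E : Finset (Finset V)) (_ : Hyp S E Δ) (u : V) (_ : u ∈ S)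
      (R : Finset α → Prop) (W : Finset α) (a : α) (_ : a ∉ W) (_ : n₀ ≤ W.card)
      (_ : (S.card : ℝ) ≤ κ * (W.card : ℝ)) (_ : ¬ BlueFano R (insert a W))
      (_ : ¬ Rooted R S E u W a) (A : Finset α) (_ : A ⊆ W)
      (_ : τ * (W.card : ℝ) ≤ (A.card : ℝ)),
      ∃ K ⊆ A, K.card = M ∧ BlueTo R a K := by
  classical
  obtain ⟨c, hc, n1, H1⟩ := root_pair Δ
  obtain ⟨r, hr⟩ := ram2 Bool (max (2 * Δ) M)
  have hr0 : (0 : ℝ) ≤ r := Nat.cast_nonneg r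
  obtain ⟨η, hη, hηc, hηr⟩ : ∃ η : ℝ, 0 < η ∧ η ≤ c ∧ (r : ℝ) ^ 2 * η ≤ 1 / 16 := by
    refine ⟨min c (1 / (16 * ((r : ℝ) + 1) ^ 2)), lt_min hc (by positivity), min_le_left _ _, ?_⟩
    have h1 : min c (1 / (16 * ((r : ℝ) + 1) ^ 2)) ≤ 1 / (16 * ((r : ℝ) + 1) ^ 2) :=
      min_le_right _ _
    have h2 : (r : ℝ) ^ 2 * min c (1 / (16 * ((r : ℝ) + 1) ^ 2)) ≤
        (r : ℝ) ^ 2 * (1 / (16 * ((r : ℝ) + 1) ^ 2)) := mul_le_mul_of_nonneg_left h1 (sq_nonneg _)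
    refine h2.trans ?_
    rw [mul_one_div, div_le_div_iff₀ (by positivity) (by norm_num)]
    nlinarith
  obtain ⟨ε, hε, hεc, hεr⟩ : ∃ ε : ℝ, 0 < ε ∧ ε ≤ c ∧ (r : ℝ) * (ε / η) ≤ 1 / 16 := by
    refine ⟨min c (η / (16 * ((r : ℝ) + 1))), lt_min hc (by positivity), min_le_left _ _, ?_⟩
    have h1 : min c (η / (16 * ((r : ℝ) + 1))) / η ≤ 1 / (16 * ((r : ℝ) + 1)) := by
      rw [div_le_iff₀ hη]
      refine (min_le_right _ _).trans (le_of_eq ?_)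
      rw [one_div, inv_mul_eq_div]
    refine (mul_le_mul_of_nonneg_left h1 hr0).trans ?_
    rw [mul_one_div, div_le_div_iff₀ (by positivity) (by norm_num)]
    linarith
  obtain ⟨γ, hγ, m0, H2⟩ := sparse_deg ε hε
  have hκ : 0 < γ * τ := mul_pos hγ hτ
  refine ⟨γ * τ, hκ, ⌈(m0 : ℝ) / τ⌉₊ + ⌈((n1 : ℝ) + 2 * (r + 1)) / (γ * τ)⌉₊, ?_⟩
  intro V α _ _ S E hyp u hu R W a haW hn hS hBF hRoot A hAW hA
  have hw1 : (m0 : ℝ) / τ ≤ (W.card : ℝ) := by
    refine (Nat.le_ceil _).trans ?_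
    exact_mod_cast (Nat.le_add_right _ _).trans hn
  have hw2 : ((n1 : ℝ) + 2 * (r + 1)) / (γ * τ) ≤ (W.card : ℝ) := by
    refine (Nat.le_ceil _).trans ?_
    exact_mod_cast (Nat.le_add_left _ _).trans hn
  rw [div_le_iff₀ hτ] at hw1
  rw [div_le_iff₀ hκ] at hw2
  have hm0 : m0 ≤ A.card := by
    have h1 : (m0 : ℝ) ≤ (A.card : ℝ) := by linarith only [hw1, hA]
    exact_mod_cast h1
  have hBFA : ¬ BlueFano R A := by
    rintro ⟨ψ, h1, h2, h3⟩
    exact hBF ⟨ψ, h1, fun i => Finset.mem_insert_of_mem (hAW (h2 i)), h3⟩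
  obtain ⟨A', hA'A, hA'c, hdense⟩ := H2 R A hm0 hBFA
  have hA'w : γ * τ * (W.card : ℝ) ≤ (A'.card : ℝ) := by
    have h1 := mul_le_mul_of_nonneg_left hA hγ.le
    linarith only [h1, hA'c]
  have hA'big : (n1 : ℝ) + 2 * (r + 1) ≤ (A'.card : ℝ) := by linarith only [hw2, hA'w]
  have hn1 : (0 : ℝ) ≤ n1 := Nat.cast_nonneg n1
  obtain ⟨X, hXA, hXn, hXc⟩ := exists_nice R A' ε η 0 hε hη r A' (Finset.Subset.refl _)
    (by rw [hdense, Finset.card_empty, Nat.cast_zero, zero_mul])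
    (by
      have h1 := mul_le_mul_of_nonneg_right hεr (Nat.cast_nonneg (α := ℝ) A'.card)
      have h2 := mul_le_mul_of_nonneg_right hηr (Nat.cast_nonneg (α := ℝ) A'.card)
      linarith only [h1, h2, hA'big, hn1, hr0])
  obtain ⟨Y, hYX, hYc, b, hb⟩ := hr X (fun x y => decide (R {a, x, y}))
    (fun x y => by rw [Finset.pair_comm x y]) hXc.ge
  cases b with
  | false =>
    obtain ⟨K, hK, hKc⟩ := Finset.exists_subset_card_eq ((le_max_right (2 * Δ) M).trans hYc.ge)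
    refine ⟨K, hK.trans (hYX.trans (hXA.trans hA'A)), hKc, fun p hp q hq hpq => ?_⟩
    exact of_decide_eq_false (hb p (hK hp) q (hK hq) hpq)
  | true =>
    exfalso
    obtain ⟨Y1, hY1, hY1c⟩ := Finset.exists_subset_card_eq ((le_max_left (2 * Δ) M).trans hYc.ge)
    obtain ⟨p, hp, q, hq, hpq, hR⟩ := H1 S E hyp u hu R A' a (fun h => haW (hAW (hA'A h)))
      (by
        have h1 : (n1 : ℝ) ≤ (A'.card : ℝ) := by linarith only [hA'big, hr0]
        exact_mod_cast h1)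
      (by
        have h1 : (S.card : ℝ) ≤ (A'.card : ℝ) := hS.trans hA'w
        exact_mod_cast h1)
      (by
        intro x hx
        have h1 : x ∉ dense R A' ε := by rw [hdense]; exact Finset.notMem_empty x
        have h2 : ((bpairs R A' x).card : ℝ) < ε * (A'.card : ℝ) ^ 2 := by
          by_contra hcon
          exact h1 (mem_dense.2 ⟨hx, not_lt.1 hcon⟩)
        exact h2.le.trans (mul_le_mul_of_nonneg_right hεc (sq_nonneg _)))
      (by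
        rintro ⟨φ, ⟨h1, h2, h3⟩, h4⟩
        exact hRoot ⟨φ, ⟨h1, fun v hv =>
          Finset.insert_subset_insert a (hA'A.trans hAW) (h2 v hv), h3⟩, h4⟩)
      ε η hεc hηc Y1 (hXn.subset (hY1.trans hYX)) hY1c
    exact hR (of_decide_eq_true (hb p (hY1 hp) q (hY1 hq) hpq))

end Pool.MP7783b9
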