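import Pool.Agent.H.MP_7783b9_co.R.Box

/-!
# Every box contains a large sparse box or a large box which is dense everywhere
-/

set_option autoImplicit false

open Finset

namespace Pool.MP7783b9

/-- upper bound for a box that may be thin: either all three sides are large, or the volume is
small -/
theorem Dich_box {α : Type} [DecidableEq α] (R : Finset α → Prop) {d q n v : ℝ}
    {A B C : Finset α} (hd : 0 ≤ d) (hq : 0 ≤ q) (hn : 0 ≤ n)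
    (hv : ((A.card : ℝ) * (B.card : ℝ) * (C.card : ℝ)) = v)
    (h : (e3 R A B C : ℝ) ≤ (d + q) * v ∨ v ≤ q * n ^ 3) :
    (e3 R A B C : ℝ) ≤ (d + q) * v + q * n ^ 3 := by
  have h0 : 0 ≤ v := by rw [← hv]; positivity
  have h1 : 0 ≤ (d + q) * v := mul_nonneg (add_nonneg hd hq) h0
  have h2 : 0 ≤ q * n ^ 3 := mul_nonneg hq (pow_nonneg hn 3)
  rcases h with h | h
  · linarith only [h, h2]
  · have h3 : (e3 R A B C : ℝ) ≤ v := by
      rw [← hv]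
      exact_mod_cast e3_le R A B C
    linarith only [h, h3, h1]

theorem Dich_dens {α : Type} [DecidableEq α] (R : Finset α → Prop) {δ θ d q : ℝ} (hδ : 0 < δ)
    (hδ1 : δ ≤ 1) (hθ : 0 < θ) (hθ1 : θ ≤ 1) (hq : q = θ * δ ^ 3 / 8) {N : ℕ}
    {X Y Z : Finset α} (hX : X.card = N) (hY : Y.card = N) (hZ : Z.card = N) (hd : θ ≤ d)
    (h : (e3 R X Y Z : ℝ) = d * (N : ℝ) ^ 3)
    (hU : ∀ A ⊆ X, ∀ B ⊆ Y, ∀ C ⊆ Z, q * (N : ℝ) ≤ (A.card : ℝ) → q * (N : ℝ) ≤ (B.card : ℝ) →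
      q * (N : ℝ) ≤ (C.card : ℝ) →
      (e3 R A B C : ℝ) ≤ (d + q) * ((A.card : ℝ) * (B.card : ℝ) * (C.card : ℝ))) :
    Dens R δ (θ / 2) X Y Z := by
  intro A hA B hB C hC hAc hBc hCc
  rw [hX] at hAc
  rw [hY] at hBc
  rw [hZ] at hCc
  have hn : (0 : ℝ) ≤ N := Nat.cast_nonneg N
  have hδ3 : 0 < δ ^ 3 := pow_pos hδ 3
  have hq0 : 0 < q := by rw [hq]; positivity
  have hqδ : q ≤ δ := by
    rw [hq]
    have h1 : δ ^ 3 ≤ δ := by
      calc δ ^ 3 = δ * (δ * δ) := by ring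
        _ ≤ δ * 1 := mul_le_mul_of_nonneg_left (mul_le_one₀ hδ1 hδ.le hδ1) hδ.le
        _ = δ := mul_one δ
    have h2 : θ * δ ^ 3 ≤ 1 * δ ^ 3 := mul_le_mul_of_nonneg_right hθ1 hδ3.le
    linarith only [h1, h2, hδ3]
  have hq1 : q ≤ 1 := hqδ.trans hδ1
  have hd0 : 0 ≤ d := hθ.le.trans hd
  have hqN : q * (N : ℝ) ≤ δ * N := mul_le_mul_of_nonneg_right hqδ hn
  have hqN1 : q * (N : ℝ) ≤ N := by
    have := mul_le_mul_of_nonneg_right hq1 hn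
    rwa [one_mul] at this
  obtain ⟨a, ha⟩ : ∃ a : ℝ, a = (A.card : ℝ) := ⟨_, rfl⟩
  obtain ⟨b, hb⟩ : ∃ b : ℝ, b = (B.card : ℝ) := ⟨_, rfl⟩
  obtain ⟨c, hc⟩ : ∃ c : ℝ, c = (C.card : ℝ) := ⟨_, rfl⟩
  obtain ⟨n, hnn⟩ : ∃ n : ℝ, n = (N : ℝ) := ⟨_, rfl⟩
  have haN : a ≤ n := by
    rw [ha, hnn, ← hX]; exact_mod_cast card_le_card hA
  have hbN : b ≤ n := by
    rw [hb, hnn, ← hY]; exact_mod_cast card_le_card hB
  have hcN : c ≤ n := by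
    rw [hc, hnn, ← hZ]; exact_mod_cast card_le_card hC
  have cX : ((X \ A).card : ℝ) = n - a := by
    rw [card_sdiff_of_subset hA, Nat.cast_sub (card_le_card hA), hX, ha, hnn]
  have cY : ((Y \ B).card : ℝ) = n - b := by
    rw [card_sdiff_of_subset hB, Nat.cast_sub (card_le_card hB), hY, hb, hnn]
  have cZ : ((Z \ C).card : ℝ) = n - c := by
    rw [card_sdiff_of_subset hC, Nat.cast_sub (card_le_card hC), hZ, hc, hnn]
  rw [← hnn, ← ha] at hAc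
  rw [← hnn, ← hb] at hBc
  rw [← hnn, ← hc] at hCc
  rw [← hnn] at hn hqN hqN1 h
  simp only [← hnn] at hU
  have ha0 : 0 ≤ a := by rw [ha]; exact Nat.cast_nonneg _
  have hb0 : 0 ≤ b := by rw [hb]; exact Nat.cast_nonneg _
  have hc0 : 0 ≤ c := by rw [hc]; exact Nat.cast_nonneg _
  -- the three slices
  have e1 : (e3 R (X \ A) Y Z : ℝ) ≤ (d + q) * ((n - a) * n * n) + q * n ^ 3 := by
    refine Dich_box R hd0 hq0.le hn (by rw [cX, hY, hZ, hnn]) ?_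
    rcases le_or_gt (q * n) (n - a) with h1 | h1
    · left
      have := hU (X \ A) sdiff_subset Y Subset.rfl Z Subset.rfl (by rw [cX]; exact h1)
        (by rw [hY, ← hnn]; exact hqN1) (by rw [hZ, ← hnn]; exact hqN1)
      rwa [cX, hY, hZ, ← hnn] at this
    · right
      calc (n - a) * n * n ≤ q * n * n * n := by gcongr
        _ = q * n ^ 3 := by ring
  have e2 : (e3 R A (Y \ B) Z : ℝ) ≤ (d + q) * (a * (n - b) * n) + q * n ^ 3 := by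
    refine Dich_box R hd0 hq0.le hn (by rw [cY, hZ, ha, hnn]) ?_
    rcases le_or_gt (q * n) (n - b) with h1 | h1
    · left
      have := hU A hA (Y \ B) sdiff_subset Z Subset.rfl (by rw [← ha]; exact hqN.trans hAc)
        (by rw [cY]; exact h1) (by rw [hZ, ← hnn]; exact hqN1)
      rwa [cY, hZ, ← ha, ← hnn] at this
    · right
      have h2 : 0 ≤ n - b := sub_nonneg.2 hbN
      calc a * (n - b) * n ≤ n * (q * n) * n := by gcongr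
        _ = q * n ^ 3 := by ring
  have e3' : (e3 R A B (Z \ C) : ℝ) ≤ (d + q) * (a * b * (n - c)) + q * n ^ 3 := by
    refine Dich_box R hd0 hq0.le hn (by rw [cZ, ha, hb]) ?_
    rcases le_or_gt (q * n) (n - c) with h1 | h1
    · left
      have := hU A hA B hB (Z \ C) sdiff_subset (by rw [← ha]; exact hqN.trans hAc)
        (by rw [← hb]; exact hqN.trans hBc) (by rw [cZ]; exact h1)
      rwa [cZ, ← ha, ← hb] at this
    · right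
      have h2 : 0 ≤ n - c := sub_nonneg.2 hcN
      calc a * b * (n - c) ≤ n * n * (q * n) := by gcongr
        _ = q * n ^ 3 := by ring
  have s1 : e3 R X Y Z = e3 R A Y Z + e3 R (X \ A) Y Z := e3_split R X Y Z A hA
  have s2 : e3 R A Y Z = e3 R A B Z + e3 R A (Y \ B) Z := by
    rw [e3_rot R A Y Z, e3_split R Y Z A B hB, ← e3_rot R A B Z, ← e3_rot R A (Y \ B) Z]
  have s3 : e3 R A B Z = e3 R A B C + e3 R A B (Z \ C) := by
    rw [← e3_rot R Z A B, e3_split R Z A B C hC, e3_rot R C A B, e3_rot R (Z \ C) A B]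
  have s : (e3 R X Y Z : ℝ) = e3 R A B C + e3 R A B (Z \ C) + e3 R A (Y \ B) Z +
      e3 R (X \ A) Y Z := by
    rw [s1, s2, s3]
    push_cast
    ring
  rw [h] at s
  have hvol : n ^ 3 * δ ^ 3 ≤ a * b * c := by
    have h1 : δ * n * (δ * n) * (δ * n) ≤ a * b * c := by
      have h2 : 0 ≤ δ * n := mul_nonneg hδ.le hn
      gcongr
    calc n ^ 3 * δ ^ 3 = δ * n * (δ * n) * (δ * n) := by ring
      _ ≤ _ := h1
  have habc : 0 ≤ a * b * c := mul_nonneg (mul_nonneg ha0 hb0) hc0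
  have k1 : d * n ^ 3 ≤ (e3 R A B C : ℝ) + ((d + q) * (a * b * (n - c)) + q * n ^ 3) +
      ((d + q) * (a * (n - b) * n) + q * n ^ 3) + ((d + q) * ((n - a) * n * n) + q * n ^ 3) := by
    linarith only [s, e1, e2, e3']
  have k2 : (d + q) * (a * b * (n - c)) + (d + q) * (a * (n - b) * n) +
      (d + q) * ((n - a) * n * n) = (d + q) * n ^ 3 - (d + q) * (a * b * c) := by ring
  have k3 : d * (a * b * c) - 4 * q * n ^ 3 ≤ (e3 R A B C : ℝ) - q * (a * b * c) := by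
    linarith only [k1, k2]
  have k4 : θ * (a * b * c) ≤ d * (a * b * c) := mul_le_mul_of_nonneg_right hd habc
  have k5 : 4 * q * n ^ 3 = θ / 2 * (n ^ 3 * δ ^ 3) := by rw [hq]; ring
  have k6 : θ / 2 * (n ^ 3 * δ ^ 3) ≤ θ / 2 * (a * b * c) :=
    mul_le_mul_of_nonneg_left hvol (by linarith only [hθ])
  have k7 : 0 ≤ q * (a * b * c) := mul_nonneg hq0.le habc
  rw [← ha, ← hb, ← hc]
  linarith only [k3, k4, k5, k6, k7]

/-- shrink a box of large density to a cube of side exactly `v` -/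
theorem Dich_shrink {α : Type} [DecidableEq α] (R : Finset α → Prop) {A B C : Finset α} {v : ℕ}
    {t : ℝ} (hv : 0 < v) (hA : v ≤ A.card) (hB : v ≤ B.card) (hC : v ≤ C.card)
    (h : t * ((A.card : ℝ) * (B.card : ℝ) * (C.card : ℝ)) < (e3 R A B C : ℝ)) :
    ∃ A' ⊆ A, ∃ B' ⊆ B, ∃ C' ⊆ C, A'.card = v ∧ B'.card = v ∧ C'.card = v ∧
      t * (v : ℝ) ^ 3 < (e3 R A' B' C' : ℝ) := by
  obtain ⟨A', hA', B', hB', C', hC', ha, hb, hc, havg⟩ := box_avg R A B C v hA hB hC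
  refine ⟨A', hA', B', hB', C', hC', ha, hb, hc, ?_⟩
  have hv' : (0 : ℝ) < (v : ℝ) ^ 3 := pow_pos (by exact_mod_cast hv) 3
  have hA0 : (0 : ℝ) < A.card := by exact_mod_cast hv.trans_le hA
  have hB0 : (0 : ℝ) < B.card := by exact_mod_cast hv.trans_le hB
  have hC0 : (0 : ℝ) < C.card := by exact_mod_cast hv.trans_le hC
  have hvol : (0 : ℝ) < (A.card : ℝ) * (B.card : ℝ) * (C.card : ℝ) :=
    mul_pos (mul_pos hA0 hB0) hC0
  have havg' : (e3 R A B C : ℝ) * (v : ℝ) ^ 3 ≤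
      (e3 R A' B' C' : ℝ) * ((A.card : ℝ) * (B.card : ℝ) * (C.card : ℝ)) := by
    exact_mod_cast havg
  have h1 := mul_lt_mul_of_pos_right h hv'
  have h2 : (t * (v : ℝ) ^ 3) * ((A.card : ℝ) * (B.card : ℝ) * (C.card : ℝ)) <
      (e3 R A' B' C' : ℝ) * ((A.card : ℝ) * (B.card : ℝ) * (C.card : ℝ)) := by
    linarith only [h1, havg']
  exact lt_of_mul_lt_mul_right h2 hvol.le

/-- density increments: at most `k` of them are possible -/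
theorem Dich_inc (δ θ : ℝ) (hδ : 0 < δ) (hδ1 : δ ≤ 1) (hθ : 0 < θ) (hθ1 : θ ≤ 1) (k : ℕ) :
    ∃ ρ : ℝ, 0 < ρ ∧ ρ ≤ 1 ∧ ∀ {α : Type} [DecidableEq α] (R : Finset α → Prop) (N : ℕ)
      (X Y Z : Finset α), X.card = N → Y.card = N → Z.card = N → 0 < N →
      θ * (N : ℝ) ^ 3 ≤ (e3 R X Y Z : ℝ) →
      (1 - (k : ℝ) * (θ * δ ^ 3 / 8)) * (N : ℝ) ^ 3 < (e3 R X Y Z : ℝ) →
      ∃ N' : ℕ, ρ * (N : ℝ) ≤ (N' : ℝ) ∧ ∃ X' ⊆ X, ∃ Y' ⊆ Y, ∃ Z' ⊆ Z,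
        X'.card = N' ∧ Y'.card = N' ∧ Z'.card = N' ∧ Dens R δ (θ / 2) X' Y' Z' := by
  obtain ⟨q, hq⟩ : ∃ q : ℝ, q = θ * δ ^ 3 / 8 := ⟨_, rfl⟩
  have hq0 : 0 < q := by rw [hq]; positivity
  have hq1 : q ≤ 1 := by
    rw [hq]
    have h1 : δ ^ 3 ≤ 1 := pow_le_one₀ hδ.le hδ1
    have h2 : θ * δ ^ 3 ≤ 1 := mul_le_one₀ hθ1 (pow_nonneg hδ.le 3) h1
    linarith only [h2]
  rw [← hq]
  induction k with
  | zero =>
    refine ⟨1, one_pos, le_rfl, fun {α} _ R N X Y Z hX hY hZ hN _ h => ?_⟩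
    exfalso
    have h1 := e3_le R X Y Z
    rw [hX, hY, hZ] at h1
    have h2 : (e3 R X Y Z : ℝ) ≤ (N : ℝ) * N * N := by exact_mod_cast h1
    rw [Nat.cast_zero, zero_mul, sub_zero, one_mul] at h
    have h3 : (N : ℝ) * N * N = (N : ℝ) ^ 3 := by ring
    linarith only [h, h2, h3]
  | succ k ih =>
    obtain ⟨ρ, hρ, hρ1, ih⟩ := ih
    refine ⟨ρ * q, mul_pos hρ hq0, mul_le_one₀ hρ1 hq0.le hq1,
      fun {α} _ R N X Y Z hX hY hZ hN hθN h => ?_⟩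
    have hN' : (0 : ℝ) < N := by exact_mod_cast hN
    have hN3 : (0 : ℝ) < (N : ℝ) ^ 3 := pow_pos hN' 3
    obtain ⟨d, hd⟩ : ∃ d : ℝ, (e3 R X Y Z : ℝ) = d * (N : ℝ) ^ 3 :=
      ⟨(e3 R X Y Z : ℝ) / (N : ℝ) ^ 3, by field_simp⟩
    rw [hd] at hθN h
    have hdθ : θ ≤ d := le_of_mul_le_mul_right hθN hN3
    have hdk : 1 - ((k + 1 : ℕ) : ℝ) * q < d := lt_of_mul_lt_mul_right h hN3.le
    by_cases hU : ∀ A ⊆ X, ∀ B ⊆ Y, ∀ C ⊆ Z, q * (N : ℝ) ≤ (A.card : ℝ) →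
        q * (N : ℝ) ≤ (B.card : ℝ) → q * (N : ℝ) ≤ (C.card : ℝ) →
        (e3 R A B C : ℝ) ≤ (d + q) * ((A.card : ℝ) * (B.card : ℝ) * (C.card : ℝ))
    · refine ⟨N, ?_, X, Subset.rfl, Y, Subset.rfl, Z, Subset.rfl, hX, hY, hZ,
        Dich_dens R hδ hδ1 hθ hθ1 hq hX hY hZ hdθ hd hU⟩
      have := mul_le_mul_of_nonneg_right (mul_le_one₀ hρ1 hq0.le hq1) hN'.le
      rwa [one_mul] at this
    · push Not at hU
      obtain ⟨A, hA, B, hB, C, hC, hAc, hBc, hCc, hlt⟩ := hU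
      obtain ⟨A', hA', B', hB', C', hC', ha, hb, hc, hlt'⟩ :=
        Dich_shrink R (v := ⌈q * (N : ℝ)⌉₊) (Nat.ceil_pos.2 (mul_pos hq0 hN'))
          (Nat.ceil_le.2 hAc) (Nat.ceil_le.2 hBc) (Nat.ceil_le.2 hCc) hlt
      have hv : q * (N : ℝ) ≤ (⌈q * (N : ℝ)⌉₊ : ℝ) := Nat.le_ceil _
      have hv3 : (0 : ℝ) ≤ (⌈q * (N : ℝ)⌉₊ : ℝ) ^ 3 := by positivity
      have h1 : θ * (⌈q * (N : ℝ)⌉₊ : ℝ) ^ 3 ≤ (e3 R A' B' C' : ℝ) := by
        have := mul_le_mul_of_nonneg_right (hdθ.trans (le_add_of_nonneg_right hq0.le)) hv3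
        linarith only [this, hlt']
      have h2 : (1 - (k : ℝ) * q) * (⌈q * (N : ℝ)⌉₊ : ℝ) ^ 3 < (e3 R A' B' C' : ℝ) := by
        have h3 : 1 - (k : ℝ) * q ≤ d + q := by
          push_cast at hdk
          linarith only [hdk]
        have := mul_le_mul_of_nonneg_right h3 hv3
        linarith only [this, hlt']
      obtain ⟨N', hN'', X', hX', Y', hY', Z', hZ', r1, r2, r3, r4⟩ :=
        ih R _ A' B' C' ha hb hc (Nat.ceil_pos.2 (mul_pos hq0 hN')) h1 h2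
      refine ⟨N', ?_, X', hX'.trans (hA'.trans hA), Y', hY'.trans (hB'.trans hB), Z',
        hZ'.trans (hC'.trans hC), r1, r2, r3, r4⟩
      calc ρ * q * (N : ℝ) = ρ * (q * N) := by ring
        _ ≤ ρ * (⌈q * (N : ℝ)⌉₊ : ℝ) := mul_le_mul_of_nonneg_left hv hρ.le
        _ ≤ _ := hN''

theorem dich (δ θ : ℝ) (hδ : 0 < δ) (hδ1 : δ ≤ 1) (hθ : 0 < θ) (hθ1 : θ ≤ 1) :
    ∃ ρ : ℝ, 0 < ρ ∧ ρ ≤ 1 ∧ ∀ {α : Type} [DecidableEq α] (R : Finset α → Prop) (N : ℕ)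
      (X Y Z : Finset α), X.card = N → Y.card = N → Z.card = N → 0 < N →
      ∃ N' : ℕ, ρ * (N : ℝ) ≤ (N' : ℝ) ∧ ∃ X' ⊆ X, ∃ Y' ⊆ Y, ∃ Z' ⊆ Z,
        X'.card = N' ∧ Y'.card = N' ∧ Z'.card = N' ∧
        (Sparse R δ θ X' Y' Z' ∨ Dens R δ (θ / 2) X' Y' Z') := by
  have hq0 : 0 < θ * δ ^ 3 / 8 := by positivity
  obtain ⟨k, hk⟩ := exists_nat_gt (1 / (θ * δ ^ 3 / 8))
  obtain ⟨ρ, hρ, hρ1, hinc⟩ := Dich_inc δ θ hδ hδ1 hθ hθ1 k
  refine ⟨ρ * δ, mul_pos hρ hδ, mul_le_one₀ hρ1 hδ.le hδ1,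
    fun {α} _ R N X Y Z hX hY hZ hN => ?_⟩
  have hN' : (0 : ℝ) < N := by exact_mod_cast hN
  by_cases hS : Sparse R δ θ X Y Z
  · refine ⟨N, ?_, X, Subset.rfl, Y, Subset.rfl, Z, Subset.rfl, hX, hY, hZ, Or.inl hS⟩
    have := mul_le_mul_of_nonneg_right (mul_le_one₀ hρ1 hδ.le hδ1) hN'.le
    rwa [one_mul] at this
  · unfold Sparse at hS
    push Not at hS
    obtain ⟨A, hA, B, hB, C, hC, hAc, hBc, hCc, hlt⟩ := hS
    rw [hX] at hAc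
    rw [hY] at hBc
    rw [hZ] at hCc
    obtain ⟨A', hA', B', hB', C', hC', ha, hb, hc, hlt'⟩ :=
      Dich_shrink R (v := ⌈δ * (N : ℝ)⌉₊) (Nat.ceil_pos.2 (mul_pos hδ hN'))
        (Nat.ceil_le.2 hAc) (Nat.ceil_le.2 hBc) (Nat.ceil_le.2 hCc) hlt
    have hv : δ * (N : ℝ) ≤ (⌈δ * (N : ℝ)⌉₊ : ℝ) := Nat.le_ceil _
    have hv3 : (0 : ℝ) ≤ (⌈δ * (N : ℝ)⌉₊ : ℝ) ^ 3 := by positivity
    have h2 : (1 - (k : ℝ) * (θ * δ ^ 3 / 8)) * (⌈δ * (N : ℝ)⌉₊ : ℝ) ^ 3 <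
        (e3 R A' B' C' : ℝ) := by
      have h3 : 1 - (k : ℝ) * (θ * δ ^ 3 / 8) ≤ θ := by
        rw [div_lt_iff₀ hq0] at hk
        linarith only [hk, hθ]
      have := mul_le_mul_of_nonneg_right h3 hv3
      linarith only [this, hlt']
    obtain ⟨N', hN'', X', hX', Y', hY', Z', hZ', r1, r2, r3, r4⟩ :=
      hinc R _ A' B' C' ha hb hc (Nat.ceil_pos.2 (mul_pos hδ hN')) hlt'.le h2
    refine ⟨N', ?_, X', hX'.trans (hA'.trans hA), Y', hY'.trans (hB'.trans hB), Z',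
      hZ'.trans (hC'.trans hC), r1, r2, r3, Or.inr r4⟩
    calc ρ * δ * (N : ℝ) = ρ * (δ * N) := by ring
      _ ≤ ρ * (⌈δ * (N : ℝ)⌉₊ : ℝ) := mul_le_mul_of_nonneg_left hv hρ.le
      _ ≤ _ := hN''

end Pool.MP7783b9
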