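import Pool.Agent.H.MP_7783b9_co.R.CliqueL
import Pool.Agent.H.MP_7783b9_co.B.CoreB
import Pool.Agent.H.MP_7783b9_co.B.Dense

/-!
# The gluing step for pieces of linear size
-/

set_option autoImplicit false

open Finset

namespace Pool.MP7783b9

theorem GlueL_blueFano_mono {α : Type*} [DecidableEq α] {R : Finset α → Prop}
    {A B : Finset α} (h : A ⊆ B) (hA : BlueFano R A) : BlueFano R B := by
  obtain ⟨ψ, h1, h2, h3⟩ := hA
  exact ⟨ψ, h1, fun i => h (h2 i), h3⟩

theorem GlueL_hasRed_mono {V α : Type*} [DecidableEq V] [DecidableEq α] {R : Finset α → Prop}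
    {S : Finset V} {E : Finset (Finset V)} {A B : Finset α} (h : A ⊆ B)
    (hA : HasRed R S E A) : HasRed R S E B := by
  obtain ⟨φ, h1, h2, h3⟩ := hA
  exact ⟨φ, h1, fun v hv => h (h2 v hv), h3⟩

theorem GlueL_rooted_mono {V α : Type*} [DecidableEq α] {R : Finset α → Prop}
    {S : Finset V} {E : Finset (Finset V)} {u : V} {a : α} {A B : Finset α} (h : A ⊆ B)
    (hA : Rooted R S E u A a) : Rooted R S E u B a := by
  obtain ⟨φ, ⟨h1, h2, h3⟩, h4⟩ := hA
  exact ⟨φ, ⟨h1, fun v hv => Finset.insert_subset_insert a h (h2 v hv), h3⟩, h4⟩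

/-- an injection -/
theorem GlueL_inj {V α : Type*} [DecidableEq V] [DecidableEq α] (S : Finset V) (U : Finset α)
    (h : S.card ≤ U.card) (a : α) : ∃ φ : V → α, Set.InjOn φ S ∧ ∀ v ∈ S, φ v ∈ U := by
  have h1 : Fintype.card S ≤ Fintype.card U := by simpa using h
  obtain ⟨f⟩ := Function.Embedding.nonempty_of_card_le h1
  refine ⟨fun v => if hv : v ∈ S then (f ⟨v, hv⟩).1 else a, ?_, ?_⟩
  · intro x hx y hy hxy
    have hx' : x ∈ S := hx
    have hy' : y ∈ S := hy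
    simp only [dif_pos hx', dif_pos hy'] at hxy
    exact congrArg Subtype.val (f.injective (Subtype.ext hxy))
  · intro v hv
    simp only [dif_pos hv]
    exact (f ⟨v, hv⟩).2

/-- a piece without a rooted copy has at least two vertices -/
theorem GlueL_two {V α : Type*} [DecidableEq V] [DecidableEq α] {Δ : ℕ} {R : Finset α → Prop}
    {S : Finset V} {E : Finset (Finset V)} (hE : Hyp S E Δ) {u : V} (hu : u ∈ S) {W : Finset α}
    {a : α} (h : ¬ Rooted R S E u W a) : 2 ≤ S.card := by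
  by_contra hcon
  have h1 : S.card = 1 := by
    have := Finset.card_pos.2 ⟨u, hu⟩
    omega
  obtain ⟨v, hv⟩ := Finset.card_eq_one.1 h1
  refine h ⟨fun _ => a, ⟨?_, fun _ _ => Finset.mem_insert_self a W, ?_⟩, rfl⟩
  · intro x hx y hy _
    rw [hv] at hx hy
    simp only [Finset.coe_singleton, Set.mem_singleton_iff] at hx hy
    rw [hx, hy]
  · intro f hf
    have h2 := Finset.card_le_card (hE.sub f hf)
    rw [hE.three f hf, h1] at h2
    omega

/-- if `a` is red with a red clique `U` of the right size, there is a rooted copy -/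
theorem GlueL_last {V α : Type*} [DecidableEq V] [DecidableEq α] {Δ : ℕ} {R : Finset α → Prop}
    {S : Finset V} {E : Finset (Finset V)} (hE : Hyp S E Δ) {u : V} {U : Finset α}
    {a : α} (ha : a ∉ U) (hu : u ∈ S) (hc : S.card ≤ U.card + 1) (hU : RedClique R U)
    (hp : ¬ HasPair R a U) : Rooted R S E u U a := by
  have hp' : ∀ p ∈ U, ∀ q ∈ U, p ≠ q → R {a, p, q} := by
    intro p hp1 q hq hpq
    by_contra hR
    exact hp ⟨p, hp1, q, hq, hpq, hR⟩
  have h1 : (S.erase u).card ≤ U.card := by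
    rw [Finset.card_erase_of_mem hu]
    omega
  obtain ⟨φ, hφ1, hφ2⟩ := GlueL_inj (S.erase u) U h1 a
  have hψ : ∀ v ∈ S, v ≠ u → (if v = u then a else φ v) = φ v := fun v _ hv => if_neg hv
  have hφU : ∀ v ∈ S, v ≠ u → φ v ∈ U := fun v hv hvu => hφ2 v (Finset.mem_erase.2 ⟨hvu, hv⟩)
  have hinj : Set.InjOn (fun v => if v = u then a else φ v) (S : Set V) := by
    intro x hx y hy hxy
    have hx' : x ∈ S := hx
    have hy' : y ∈ S := hy
    simp only at hxy
    by_cases hxu : x = u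
    · by_cases hyu : y = u
      · rw [hxu, hyu]
      · rw [if_pos hxu, if_neg hyu] at hxy
        exact absurd (hφU y hy' hyu) (by rw [← hxy]; exact ha)
    · by_cases hyu : y = u
      · rw [if_neg hxu, if_pos hyu] at hxy
        exact absurd (hφU x hx' hxu) (by rw [hxy]; exact ha)
      · rw [if_neg hxu, if_neg hyu] at hxy
        exact hφ1 (Finset.mem_coe.2 (Finset.mem_erase.2 ⟨hxu, hx'⟩))
          (Finset.mem_coe.2 (Finset.mem_erase.2 ⟨hyu, hy'⟩)) hxy
  refine ⟨fun v => if v = u then a else φ v, ⟨hinj, ?_, ?_⟩, if_pos rfl⟩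
  · intro v hv
    by_cases hvu : v = u
    · simp only [if_pos hvu]
      exact Finset.mem_insert_self a U
    · simp only [if_neg hvu]
      exact Finset.mem_insert_of_mem (hφU v hv hvu)
  · intro f hf
    have hfS := hE.sub f hf
    have hf3 := hE.three f hf
    have hinjf : Set.InjOn (fun v => if v = u then a else φ v) (f : Set V) :=
      hinj.mono (Finset.coe_subset.2 hfS)
    by_cases huf : u ∈ f
    · have h2 : (f.erase u).card = 2 := by
        rw [Finset.card_erase_of_mem huf, hf3]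
      obtain ⟨v, w, hvw, he⟩ := Finset.card_eq_two.1 h2
      have hv : v ∈ f.erase u := by rw [he]; exact Finset.mem_insert_self v {w}
      have hw : w ∈ f.erase u := by
        rw [he]; exact Finset.mem_insert_of_mem (Finset.mem_singleton_self w)
      have hf' : f = {u, v, w} := by
        rw [← Finset.insert_erase huf, he]
      have hvu := (Finset.mem_erase.1 hv).1
      have hwu := (Finset.mem_erase.1 hw).1
      have hvS := hfS (Finset.mem_erase.1 hv).2
      have hwS := hfS (Finset.mem_erase.1 hw).2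
      have him : f.image (fun v => if v = u then a else φ v) = {a, φ v, φ w} := by
        rw [hf', Finset.image_insert, Finset.image_insert, Finset.image_singleton]
        simp only [if_neg hvu, if_neg hwu, if_pos]
      rw [him]
      refine hp' _ (hφU v hvS hvu) _ (hφU w hwS hwu) ?_
      intro h3
      exact hvw (hφ1 (Finset.mem_coe.2 (Finset.mem_erase.2 ⟨hvu, hvS⟩))
        (Finset.mem_coe.2 (Finset.mem_erase.2 ⟨hwu, hwS⟩)) h3)
    · refine hU _ ?_ ?_
      · intro y hy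
        obtain ⟨v, hv, rfl⟩ := Finset.mem_image.1 hy
        have hvu : v ≠ u := by
          rintro rfl
          exact huf hv
        simp only [if_neg hvu]
        exact hφU v (hfS hv) hvu
      · rw [Finset.card_image_of_injOn hinjf, hf3]

theorem GlueL_bpairs_mono {α : Type*} [DecidableEq α] (R : Finset α → Prop) {A B : Finset α}
    (h : A ⊆ B) (v : α) : (bpairs R A v).card ≤ (bpairs R B v).card := by
  refine Finset.card_le_card ?_
  rintro ⟨p, q⟩ hp
  rw [mem_bpairs] at hp ⊢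
  exact ⟨h hp.1, h hp.2.1, hp.2.2⟩

theorem GlueL_cod_mono {α : Type*} [DecidableEq α] (R : Finset α → Prop) {A B : Finset α}
    (h : A ⊆ B) (x y : α) : (cod R A x y).card ≤ (cod R B x y).card := by
  refine Finset.card_le_card ?_
  intro z hz
  rw [mem_cod] at hz ⊢
  exact ⟨h hz.1, hz.2⟩

/-- `(S, E)` is the whole hypergraph, `(S₁, E₁)` is the piece with root `u` -/
theorem glue_lin (Δ : ℕ) :
    ∃ ζ : ℝ, 0 < ζ ∧ ∃ n₀ : ℕ, ∀ {V : Type*} {α : Type} [DecidableEq V] [DecidableEq α]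
      (S : Finset V) (E : Finset (Finset V)) (_ : Hyp S E Δ)
      (S₁ : Finset V) (E₁ : Finset (Finset V)) (_ : Hyp S₁ E₁ Δ) (u : V) (_ : u ∈ S₁)
      (_ : (S₁.card : ℝ) ≤ ζ * (S.card : ℝ)) (R : Finset α → Prop)
      (W : Finset α) (a : α) (_ : a ∉ W) (_ : ¬ BlueFano R (insert a W))
      (_ : n₀ ≤ S.card) (_ : S.card + S₁.card ≤ W.card + 2)
      (_ : ¬ Rooted R S₁ E₁ u W a),
      HasRed R S E W := by
  rcases Nat.eq_zero_or_pos Δ with rfl | hΔ
  · refine ⟨1, one_pos, 0, fun {V α} _ _ S E hE S₁ E₁ hE₁ u hu _ R W a _ _ _ hW hR => ?_⟩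
    have h2 := GlueL_two hE₁ hu hR
    obtain ⟨φ, h3, h4⟩ := GlueL_inj S W (by omega) a
    refine ⟨φ, h3, h4, fun f hf => ?_⟩
    exfalso
    have h5 : f.Nonempty := by
      rw [← Finset.card_pos, hE.three f hf]
      omega
    obtain ⟨x, hx⟩ := h5
    have h6 : f ∈ edgesAt E x := Finset.mem_filter.2 ⟨hf, hx⟩
    have h7 := Finset.card_pos.2 ⟨f, h6⟩
    have h8 := hE.deg x
    omega
  obtain ⟨c, hc, n₁, r, hcore⟩ := core Δ (2 * Δ)
  obtain ⟨c₂, hc₂, n₂, hroot⟩ := root_pair Δ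
  obtain ⟨η, hη, hηc, hηc₂, hηr⟩ : ∃ η : ℝ, 0 < η ∧ η ≤ c ∧ 2 * η ≤ c₂ ∧
      (r : ℝ) ^ 2 * η ≤ 1 / 16 := by
    refine ⟨min (min c (c₂ / 2)) (1 / (16 * ((r : ℝ) + 1) ^ 2)),
      lt_min (lt_min hc (by positivity)) (by positivity),
      (min_le_left _ _).trans (min_le_left _ _), ?_, ?_⟩
    · have h1 : min (min c (c₂ / 2)) (1 / (16 * ((r : ℝ) + 1) ^ 2)) ≤ c₂ / 2 :=
        (min_le_left _ _).trans (min_le_right _ _)
      linarith
    · have h1 : min (min c (c₂ / 2)) (1 / (16 * ((r : ℝ) + 1) ^ 2)) ≤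
          1 / (16 * ((r : ℝ) + 1) ^ 2) := min_le_right _ _
      have hr : (0 : ℝ) ≤ r := Nat.cast_nonneg r
      have h2 : (r : ℝ) ^ 2 * (1 / (16 * ((r : ℝ) + 1) ^ 2)) ≤ 1 / 16 := by
        rw [mul_one_div, div_le_div_iff₀ (by positivity) (by norm_num)]
        nlinarith
      exact (mul_le_mul_of_nonneg_left h1 (by positivity)).trans h2
  obtain ⟨ε, hε, hεc, hεc₂, hεr⟩ : ∃ ε : ℝ, 0 < ε ∧ ε ≤ c ∧ 4 * ε ≤ c₂ ∧
      (r : ℝ) * (ε / η) ≤ 1 / 16 := by
    refine ⟨min (min c (c₂ / 4)) (η / (16 * ((r : ℝ) + 1))),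
      lt_min (lt_min hc (by positivity)) (by positivity),
      (min_le_left _ _).trans (min_le_left _ _), ?_, ?_⟩
    · have h1 : min (min c (c₂ / 4)) (η / (16 * ((r : ℝ) + 1))) ≤ c₂ / 4 :=
        (min_le_left _ _).trans (min_le_right _ _)
      linarith
    · have h1 : min (min c (c₂ / 4)) (η / (16 * ((r : ℝ) + 1))) / η ≤
          1 / (16 * ((r : ℝ) + 1)) := by
        rw [div_le_iff₀ hη]
        refine (min_le_right _ _).trans (le_of_eq ?_)
        ring
      have hr : (0 : ℝ) ≤ r := Nat.cast_nonneg r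
      have h2 : (r : ℝ) * (1 / (16 * ((r : ℝ) + 1))) ≤ 1 / 16 := by
        rw [mul_one_div, div_le_div_iff₀ (by positivity) (by norm_num)]
        nlinarith
      exact (mul_le_mul_of_nonneg_left h1 (by positivity)).trans h2
  obtain ⟨m, hm, hεm⟩ : ∃ m : ℕ, 0 < m ∧ 2 ≤ ε * m := by
    obtain ⟨m, hm⟩ := exists_nat_ge (2 / ε)
    refine ⟨m, ?_, ?_⟩
    · rcases Nat.eq_zero_or_pos m with rfl | h
      · exfalso
        have : 0 < 2 / ε := by positivity
        simp only [Nat.cast_zero] at hm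
        linarith
      · exact h
    · rw [div_le_iff₀ hε] at hm
      linarith
  have hm' : (0 : ℝ) < m := by exact_mod_cast hm
  obtain ⟨τ, hτ, hτc, hτm, hτΔ⟩ : ∃ τ : ℝ, 0 < τ ∧ τ ≤ c ∧ 2 * (m : ℝ) ^ 4 * τ ≤ 1 ∧
      ((Δ : ℝ) + 1) * τ ≤ 1 / 100 := by
    refine ⟨min c (min (1 / (2 * (m : ℝ) ^ 4)) (1 / (100 * ((Δ : ℝ) + 1)))),
      lt_min hc (lt_min (by positivity) (by positivity)), min_le_left _ _, ?_, ?_⟩
    · have h1 : min c (min (1 / (2 * (m : ℝ) ^ 4)) (1 / (100 * ((Δ : ℝ) + 1)))) ≤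
          1 / (2 * (m : ℝ) ^ 4) := (min_le_right _ _).trans (min_le_left _ _)
      refine (mul_le_mul_of_nonneg_left h1 (by positivity)).trans (le_of_eq ?_)
      field_simp
    · have h1 : min c (min (1 / (2 * (m : ℝ) ^ 4)) (1 / (100 * ((Δ : ℝ) + 1)))) ≤
          1 / (100 * ((Δ : ℝ) + 1)) := (min_le_right _ _).trans (min_le_right _ _)
      refine (mul_le_mul_of_nonneg_left h1 (by positivity)).trans (le_of_eq ?_)
      field_simp
  obtain ⟨κ₁, hκ₁, n₃, hclique⟩ := clique_lin Δ hΔ (2 * m ^ 2) τ hτ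
  refine ⟨min κ₁ (1 / 100), lt_min hκ₁ (by norm_num), n₁ + 2 * n₂ + n₃ + 2 * (r + 3) + 8,
    fun {V α} _ _ S E hE S₁ E₁ hE₁ u hu hS₁ R W a ha hF hn hW hR => ?_⟩
  have h2S := GlueL_two hE₁ hu hR
  obtain ⟨W₁, hW₁, hc₁⟩ := Finset.exists_subset_card_eq (s := W) (n := S.card + S₁.card - 2)
    (by omega)
  refine GlueL_hasRed_mono hW₁ ?_
  have haW₁ : a ∉ W₁ := fun h => ha (hW₁ h)
  have hF₁ : ¬ BlueFano R (insert a W₁) := fun h =>
    hF (GlueL_blueFano_mono (Finset.insert_subset_insert a hW₁) h)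
  have hR₁ : ¬ Rooted R S₁ E₁ u W₁ a := fun h => hR (GlueL_rooted_mono hW₁ h)
  have hwS : S.card ≤ W₁.card := by omega
  have hwn : n₁ + 2 * n₂ + n₃ + 2 * (r + 3) + 8 ≤ W₁.card := hn.trans hwS
  have hw : ((n₁ : ℝ) + 2 * n₂ + n₃ + 2 * (r + 3) + 8) ≤ W₁.card := by exact_mod_cast hwn
  have hn₁ : (0 : ℝ) ≤ n₁ := Nat.cast_nonneg _
  have hn₂ : (0 : ℝ) ≤ n₂ := Nat.cast_nonneg _
  have hn₃ : (0 : ℝ) ≤ n₃ := Nat.cast_nonneg _
  have hr0 : (0 : ℝ) ≤ r := Nat.cast_nonneg _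
  have hwpos : (0 : ℝ) < W₁.card := by linarith
  have hwS' : (S.card : ℝ) ≤ W₁.card := by exact_mod_cast hwS
  have hne : W₁.Nonempty := by
    rw [← Finset.card_pos]
    omega
  have hS₁a : (S₁.card : ℝ) ≤ κ₁ * (W₁.card : ℝ) := by
    refine hS₁.trans ?_
    exact mul_le_mul (min_le_left _ _) hwS' (Nat.cast_nonneg _) hκ₁.le
  have hS₁b : (S₁.card : ℝ) ≤ 1 / 100 * (W₁.card : ℝ) := by
    refine hS₁.trans ?_
    exact mul_le_mul (min_le_right _ _) hwS' (Nat.cast_nonneg _) (by norm_num)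
  have hD : ((dense R W₁ ε).card : ℝ) < τ * (W₁.card : ℝ) := by
    refine few_dense R W₁ a haW₁ hF₁ hne m hm ε τ hεm hτ hτm ?_
    intro A hA hcA
    exact hclique S₁ E₁ hE₁ u hu R W₁ a haW₁ (by omega) hS₁a hF₁ hR₁ A hA hcA
  have hτ1 : τ ≤ 1 / 100 := by
    have hΔ' : (0 : ℝ) ≤ Δ := Nat.cast_nonneg _
    nlinarith only [hΔ', hτ, hτΔ]
  refine hcore ε η τ ((2 * (Δ : ℝ) + 2) * τ + 1 / 100) (1 / 100) hε hεc hη hηc hτ.le hτc
    (by norm_num) (by norm_num) le_rfl S E hE R W₁ a haW₁ hF₁ (by omega) hwS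
    ?_ hD.le ?_ ?_
  · have h1 : (W₁.card : ℝ) + 2 = S.card + S₁.card := by
      have h2 : W₁.card + 2 = S.card + S₁.card := by omega
      exact_mod_cast h2
    linarith only [h1, hS₁b]
  · intro Φ hΦ
    have hcard : (W₁.card : ℝ) - Φ.card - (dense R W₁ ε).card ≤
        ((W₁ \ (Φ ∪ dense R W₁ ε)).card : ℝ) := by
      have h2 : W₁.card ≤ (W₁ \ (Φ ∪ dense R W₁ ε)).card + (Φ.card + (dense R W₁ ε).card) := by
        have h3 := Finset.le_card_sdiff (Φ ∪ dense R W₁ ε) W₁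
        have h4 := Finset.card_union_le Φ (dense R W₁ ε)
        omega
      have h3 : (W₁.card : ℝ) ≤ ((W₁ \ (Φ ∪ dense R W₁ ε)).card : ℝ) +
          (Φ.card + (dense R W₁ ε).card) := by exact_mod_cast h2
      linarith only [h3]
    have h5 : τ * (W₁.card : ℝ) ≤ 1 / 100 * (W₁.card : ℝ) :=
      mul_le_mul_of_nonneg_right hτ1 hwpos.le
    have h8 : 3 * ((2 * (Δ : ℝ) + 2) * τ + 1 / 100) * (W₁.card : ℝ) ≤
        9 / 100 * (W₁.card : ℝ) :=
      mul_le_mul_of_nonneg_right (by linarith only [hτΔ]) hwpos.le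
    have hAsub : W₁ \ (Φ ∪ dense R W₁ ε) ⊆ W₁ := Finset.sdiff_subset
    have hAhalf : (W₁.card : ℝ) / 2 ≤ ((W₁ \ (Φ ∪ dense R W₁ ε)).card : ℝ) := by
      linarith only [hcard, h5, h8, hΦ, hD, hw, hn₁, hn₂, hn₃, hr0]
    obtain ⟨X, hX, hXn, hXc⟩ := exists_nice R W₁ ε η τ hε hη r (W₁ \ (Φ ∪ dense R W₁ ε))
      hAsub hD.le (by
        have h6 : (r : ℝ) * (ε / η) * (W₁.card : ℝ) ≤ 1 / 16 * (W₁.card : ℝ) :=
          mul_le_mul_of_nonneg_right hεr hwpos.le
        have h7 : (r : ℝ) ^ 2 * η * (W₁.card : ℝ) ≤ 1 / 16 * (W₁.card : ℝ) :=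
          mul_le_mul_of_nonneg_right hηr hwpos.le
        linarith only [h5, h6, h7, h8, hcard, hΦ, hD, hw, hn₁, hn₂, hn₃, hr0])
    have hXΦ : Disjoint X Φ := by
      rw [Finset.disjoint_left]
      intro x hx hxΦ
      exact (Finset.mem_sdiff.1 (hX hx)).2 (Finset.mem_union_left _ hxΦ)
    refine ⟨X, hXn, hXc, hXΦ, fun Y hY hYc => ?_⟩
    generalize hAdef : W₁ \ (Φ ∪ dense R W₁ ε) = A at *
    have hA0 : (0 : ℝ) ≤ (A.card : ℝ) := Nat.cast_nonneg _
    have hsq : ε * (W₁.card : ℝ) ^ 2 ≤ 4 * ε * (A.card : ℝ) ^ 2 := by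
      have h9 : (W₁.card : ℝ) ≤ 2 * (A.card : ℝ) := by linarith only [hAhalf]
      have h10 : (W₁.card : ℝ) ^ 2 ≤ (2 * (A.card : ℝ)) ^ 2 :=
        pow_le_pow_left₀ hwpos.le h9 2
      have h11 := mul_le_mul_of_nonneg_left h10 hε.le
      linarith only [h11]
    have hlin : η * (W₁.card : ℝ) ≤ 2 * η * (A.card : ℝ) := by
      have h9 : (W₁.card : ℝ) ≤ 2 * (A.card : ℝ) := by linarith only [hAhalf]
      have h11 := mul_le_mul_of_nonneg_left h9 hη.le
      linarith only [h11]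
    have hnice : Nice R A (4 * ε) (2 * η) Y :=
      { sub := hY.trans hX
        deg := fun x hx => by
          have h9 := hXn.deg x (hY hx)
          have h10 : ((bpairs R A x).card : ℝ) ≤ ((bpairs R W₁ x).card : ℝ) := by
            exact_mod_cast GlueL_bpairs_mono R hAsub x
          linarith only [h9, h10, hsq]
        cod := fun x hx y hy hxy => by
          have h9 := hXn.cod x (hY hx) y (hY hy) hxy
          have h10 : ((cod R A x y).card : ℝ) ≤ ((cod R W₁ x y).card : ℝ) := by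
            exact_mod_cast GlueL_cod_mono R hAsub x y
          linarith only [h9, h10, hlin]
        red := fun f hf => hXn.red f (hf.trans hY) }
    refine hroot S₁ E₁ hE₁ u hu R A a (fun h => haW₁ (hAsub h)) ?_ ?_ ?_
      (fun h => hR₁ (GlueL_rooted_mono hAsub h)) (4 * ε) (2 * η) hεc₂ hηc₂ Y hnice hYc
    · have h9 : (n₂ : ℝ) ≤ (A.card : ℝ) := by
        linarith only [hAhalf, hw, hn₁, hn₂, hn₃, hr0]
      exact_mod_cast h9
    · have h9 : (S₁.card : ℝ) ≤ (A.card : ℝ) := by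
        linarith only [hAhalf, hS₁b, hwpos]
      exact_mod_cast h9
    · intro x hx
      have hxd : x ∉ dense R W₁ ε := by
        rw [← hAdef] at hx
        exact fun h => (Finset.mem_sdiff.1 hx).2 (Finset.mem_union_right _ h)
      have h9 : ((bpairs R W₁ x).card : ℝ) < ε * (W₁.card : ℝ) ^ 2 := by
        by_contra hcon
        exact hxd (mem_dense.2 ⟨hAsub hx, not_lt.1 hcon⟩)
      have h10 : ((bpairs R A x).card : ℝ) ≤ ((bpairs R W₁ x).card : ℝ) := by
        exact_mod_cast GlueL_bpairs_mono R hAsub x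
      have h11 : 4 * ε * (A.card : ℝ) ^ 2 ≤ c₂ * (A.card : ℝ) ^ 2 :=
        mul_le_mul_of_nonneg_right hεc₂ (by positivity)
      linarith only [h9, h10, h11, hsq]
  · intro U hU hUc hUr
    by_contra hp
    exact hR₁ (GlueL_rooted_mono hU
      (GlueL_last hE₁ (fun h => haW₁ (hU h)) hu (by omega) hUr hp))

end Pool.MP7783b9
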