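import Pool.Agent.H.MP_7783b9_co.R.Dich

/-!
# All triples of parts at the same time
-/

set_option autoImplicit false

open Finset

namespace Pool.MP7783b9

theorem Multi_side {α : Type} [DecidableEq α] {δ ρ : ℝ} (hδ : 0 < δ) {N1 N2 : ℕ}
    (h : ρ * (N1 : ℝ) ≤ (N2 : ℝ)) {X X1 A : Finset α} (hX1 : X1.card = N1) (hX : X.card = N2)
    (hA : δ * (X.card : ℝ) ≤ (A.card : ℝ)) : δ * ρ * (X1.card : ℝ) ≤ (A.card : ℝ) := by
  rw [hX] at hA
  rw [hX1]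
  have h2 : δ * (ρ * (N1 : ℝ)) ≤ δ * (N2 : ℝ) := mul_le_mul_of_nonneg_left h hδ.le
  linarith only [h2, hA, show δ * ρ * (N1 : ℝ) = δ * (ρ * (N1 : ℝ)) by ring]

theorem Multi_sparse {α : Type} [DecidableEq α] {R : Finset α → Prop} {δ ρ θ : ℝ} (hδ : 0 < δ)
    {N1 N2 : ℕ} (h : ρ * (N1 : ℝ) ≤ (N2 : ℝ)) {X Y Z X1 Y1 Z1 : Finset α}
    (hX : X ⊆ X1) (hY : Y ⊆ Y1) (hZ : Z ⊆ Z1) (cX1 : X1.card = N1) (cY1 : Y1.card = N1)
    (cZ1 : Z1.card = N1) (cX : X.card = N2) (cY : Y.card = N2) (cZ : Z.card = N2)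
    (hs : Sparse R (δ * ρ) θ X1 Y1 Z1) : Sparse R δ θ X Y Z :=
  fun A hA B hB C hC h1 h2 h3 => hs A (hA.trans hX) B (hB.trans hY) C (hC.trans hZ)
    (Multi_side hδ h cX1 cX h1) (Multi_side hδ h cY1 cY h2) (Multi_side hδ h cZ1 cZ h3)

theorem Multi_dens {α : Type} [DecidableEq α] {R : Finset α → Prop} {δ ρ θ : ℝ} (hδ : 0 < δ)
    {N1 N2 : ℕ} (h : ρ * (N1 : ℝ) ≤ (N2 : ℝ)) {X Y Z X1 Y1 Z1 : Finset α}
    (hX : X ⊆ X1) (hY : Y ⊆ Y1) (hZ : Z ⊆ Z1) (cX1 : X1.card = N1) (cY1 : Y1.card = N1)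
    (cZ1 : Z1.card = N1) (cX : X.card = N2) (cY : Y.card = N2) (cZ : Z.card = N2)
    (hs : Dens R (δ * ρ) θ X1 Y1 Z1) : Dens R δ θ X Y Z :=
  fun A hA B hB C hC h1 h2 h3 => hs A (hA.trans hX) B (hB.trans hY) C (hC.trans hZ)
    (Multi_side hδ h cX1 cX h1) (Multi_side hδ h cY1 cY h2) (Multi_side hδ h cZ1 cZ h3)

theorem multi (r : ℕ) (J : Finset (Fin r × Fin r × Fin r))
    (hJ : ∀ T ∈ J, T.1 ≠ T.2.1 ∧ T.1 ≠ T.2.2 ∧ T.2.1 ≠ T.2.2) (θ : ℝ) (hθ : 0 < θ)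
    (hθ1 : θ ≤ 1) (δ : ℝ) (hδ : 0 < δ) (hδ1 : δ ≤ 1) :
    ∃ ρ : ℝ, 0 < ρ ∧ ρ ≤ 1 ∧ ∀ {α : Type} [DecidableEq α] (R : Finset α → Prop) (N : ℕ)
      (V : Fin r → Finset α), (∀ i, (V i).card = N) → 0 < N →
      ∃ N' : ℕ, ρ * (N : ℝ) ≤ (N' : ℝ) ∧ ∃ V' : Fin r → Finset α,
        (∀ i, V' i ⊆ V i ∧ (V' i).card = N') ∧
        ∀ T ∈ J, Sparse R δ θ (V' T.1) (V' T.2.1) (V' T.2.2) ∨
          Dens R δ (θ / 2) (V' T.1) (V' T.2.1) (V' T.2.2) := by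
  induction J using Finset.induction_on generalizing δ with
  | empty =>
    refine ⟨1, one_pos, le_refl 1, fun R N V hV _ => ⟨N, ?_, V, fun i => ⟨Finset.Subset.refl _, hV i⟩,
      fun T hT => ?_⟩⟩
    · rw [one_mul]
    · exact absurd hT (Finset.notMem_empty T)
  | insert T J _ ih =>
    obtain ⟨ρT, hρT, hρT1, hd⟩ := dich δ θ hδ hδ1 hθ hθ1
    have hδ' : δ * ρT ≤ 1 := by
      have h1 : δ * ρT ≤ 1 * 1 := mul_le_mul hδ1 hρT1 hρT.le zero_le_one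
      linarith only [h1]
    obtain ⟨ρ, hρ, hρ1, hi⟩ := ih (fun T0 hT0 => hJ T0 (Finset.mem_insert_of_mem hT0)) (δ * ρT)
      (mul_pos hδ hρT) hδ'
    refine ⟨ρ * ρT, mul_pos hρ hρT, ?_, ?_⟩
    · have h1 : ρ * ρT ≤ 1 * 1 := mul_le_mul hρ1 hρT1 hρT.le zero_le_one
      linarith only [h1]
    intro α _ R N V hV hN
    obtain ⟨N1, hN1, V1, hV1, hJ1⟩ := hi R N V hV hN
    have hN0 : (0:ℝ) < N := by exact_mod_cast hN
    have hN1pos : 0 < N1 := by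
      have h1 : (0:ℝ) < (N1 : ℝ) := lt_of_lt_of_le (mul_pos hρ hN0) hN1
      exact_mod_cast h1
    obtain ⟨N2, hN2, X', hX', Y', hY', Z', hZ', cX, cY, cZ, hT⟩ := hd R N1 (V1 T.1) (V1 T.2.1)
      (V1 T.2.2) (hV1 _).2 (hV1 _).2 (hV1 _).2 hN1pos
    obtain ⟨h12, h13, h23⟩ := hJ T (Finset.mem_insert_self _ _)
    have hle : N2 ≤ N1 := by
      rw [← cX, ← (hV1 T.1).2]
      exact Finset.card_le_card hX'
    have hU : ∀ i, ∃ U, U ⊆ V1 i ∧ U.card = N2 := fun i =>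
      Finset.exists_subset_card_eq (by rw [(hV1 i).2]; exact hle)
    choose U hU1 hU2 using hU
    obtain ⟨V', hV'⟩ : ∃ V' : Fin r → Finset α, V' = fun i =>
      if i = T.1 then X' else if i = T.2.1 then Y' else if i = T.2.2 then Z' else U i := ⟨_, rfl⟩
    have e1 : V' T.1 = X' := by rw [hV']; exact if_pos rfl
    have e2 : V' T.2.1 = Y' := by
      rw [hV']
      change (if T.2.1 = T.1 then X' else if T.2.1 = T.2.1 then Y' else
        if T.2.1 = T.2.2 then Z' else U T.2.1) = Y'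
      rw [if_neg h12.symm, if_pos rfl]
    have e3 : V' T.2.2 = Z' := by
      rw [hV']
      change (if T.2.2 = T.1 then X' else if T.2.2 = T.2.1 then Y' else
        if T.2.2 = T.2.2 then Z' else U T.2.2) = Z'
      rw [if_neg h13.symm, if_neg h23.symm, if_pos rfl]
    have hsub : ∀ i, V' i ⊆ V1 i ∧ (V' i).card = N2 := by
      intro i
      by_cases hi1 : i = T.1
      · rw [hi1, e1]
        exact ⟨hX', cX⟩
      by_cases hi2 : i = T.2.1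
      · rw [hi2, e2]
        exact ⟨hY', cY⟩
      by_cases hi3 : i = T.2.2
      · rw [hi3, e3]
        exact ⟨hZ', cZ⟩
      have e4 : V' i = U i := by
        rw [hV']
        change (if i = T.1 then X' else if i = T.2.1 then Y' else
          if i = T.2.2 then Z' else U i) = U i
        rw [if_neg hi1, if_neg hi2, if_neg hi3]
      rw [e4]
      exact ⟨hU1 i, hU2 i⟩
    refine ⟨N2, ?_, V', fun i => ⟨(hsub i).1.trans (hV1 i).1, (hsub i).2⟩, fun T0 hT0 => ?_⟩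
    · have h1 : ρT * (ρ * (N : ℝ)) ≤ ρT * (N1 : ℝ) := mul_le_mul_of_nonneg_left hN1 hρT.le
      linarith only [h1, hN2, show ρ * ρT * (N : ℝ) = ρT * (ρ * (N : ℝ)) by ring]
    · rcases Finset.mem_insert.1 hT0 with h0 | h0
      · rw [h0, e1, e2, e3]
        exact hT
      · rcases hJ1 T0 h0 with h1 | h1
        · exact Or.inl (Multi_sparse hδ hN2 (hsub _).1 (hsub _).1 (hsub _).1 (hV1 _).2 (hV1 _).2
            (hV1 _).2 (hsub _).2 (hsub _).2 (hsub _).2 h1)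
        · exact Or.inr (Multi_dens hδ hN2 (hsub _).1 (hsub _).1 (hsub _).1 (hV1 _).2 (hV1 _).2
            (hV1 _).2 (hsub _).2 (hsub _).2 (hsub _).2 h1)

end Pool.MP7783b9
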